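import Mathlib
import Pool.Agent.Results.MP_a3a416_nt.SparseIrregular
import Pool.Agent.Results.MP_a3a416_nt.IrregularRuns
import Pool.Agent.Results.MP_a3a416_nt.SumsOfRegularIndices

set_option autoImplicit false

/-!
# Sums of few regular indices
-/

namespace Pool.Agent.H17Reg

open Finset Filter Topology

open Pool.Agent.Results.MP_a3a416_nt

/-- `i` is a regular index of `p` -/
def Rg (p i : ℕ) : Prop := 1 ≤ i ∧ 2 * i + 3 ≤ p ∧ ¬ (p : ℤ) ∣ (bernoulli (2 * i)).num

/-- there is a regular index at distance at most `√k` below `k` -/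
theorem near (p : ℕ) (hp : p.Prime) (k : ℕ) (hk : 2 ≤ k) (hkp : 2 * k + 3 ≤ p) :
    ∃ m t : ℕ, Rg p m ∧ 1 ≤ t ∧ t * t ≤ k ∧ m + t = k := by
  obtain ⟨r, hr⟩ : ∃ r, r = Nat.sqrt k := ⟨_, rfl⟩
  have h1 : r * r ≤ k := by rw [hr]; exact Nat.sqrt_le k
  have h2 : k < (r + 1) * (r + 1) := by rw [hr]; exact Nat.lt_succ_sqrt k
  have hr1 : 1 ≤ r := by
    rcases Nat.eq_zero_or_pos r with h | h
    · subst h; omega
    · exact h
  have hrk : r + 1 ≤ k := by
    rcases Nat.lt_or_ge r 2 with h | h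
    · omega
    · nlinarith
  obtain ⟨m, hm1, hm2, hm3⟩ := IrregularRuns.result p hp (k - r - 1) r hr1
    (by
      obtain ⟨a, ha⟩ : ∃ a, k = a + r + 1 := ⟨k - r - 1, by omega⟩
      have h3 : k - r - 1 = a := by omega
      rw [h3]
      nlinarith) (by omega)
  refine ⟨m, k - m, ⟨by omega, by omega, hm3⟩, by omega, ?_, by omega⟩
  have h3 : k - m ≤ r := by omega
  exact (Nat.mul_le_mul h3 h3).trans h1

/-- few irregular indices: sums of two regular indices -/
theorem two_of_few (p : ℕ) (t : ℕ) (htp : 2 * t + 3 ≤ p)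
    (h : 2 * SparseIrregular.irregularCount p t + 1 < t) :
    ∃ i j : ℕ, Rg p i ∧ Rg p j ∧ i + j = t := by
  classical
  by_contra hcon
  push Not at hcon
  set I := (Icc 1 t).filter (fun m => (p : ℤ) ∣ (bernoulli (2 * m)).num) with hI
  have h0 : SparseIrregular.irregularCount p t = I.card := rfl
  have hsub : Icc 1 (t - 1) ⊆ I ∪ I.image (fun m => t - m) := by
    intro i hi
    rw [mem_Icc] at hi
    rw [mem_union]
    by_cases h1 : (p : ℤ) ∣ (bernoulli (2 * i)).num
    · left
      rw [hI, mem_filter, mem_Icc]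
      exact ⟨by omega, h1⟩
    · right
      rw [mem_image]
      refine ⟨t - i, ?_, by omega⟩
      rw [hI, mem_filter, mem_Icc]
      refine ⟨by omega, ?_⟩
      by_contra h2
      exact hcon i (t - i) ⟨by omega, by omega, h1⟩ ⟨by omega, by omega, h2⟩ (by omega)
  have h1 := (card_le_card hsub).trans (card_union_le _ _)
  have h2 : (I.image (fun m => t - m)).card ≤ I.card := card_image_le
  rw [Nat.card_Icc] at h1
  omega

/-- no irregular indices up to `t` -/
theorem reg_of_zero (p : ℕ) (t : ℕ) (ht : 1 ≤ t) (htp : 2 * t + 3 ≤ p)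
    (h : SparseIrregular.irregularCount p t = 0) : Rg p t := by
  refine ⟨ht, htp, ?_⟩
  intro h1
  unfold SparseIrregular.irregularCount at h
  rw [card_eq_zero, filter_eq_empty_iff] at h
  exact h (mem_Icc.2 ⟨ht, le_refl t⟩) h1

/-- a regular index at least two is a sum of two regular indices -/
theorem two_of_reg (p : ℕ) (hp : p.Prime) (k : ℕ) (hk : 2 ≤ k) (hr : Rg p k) :
    ∃ i j : ℕ, Rg p i ∧ Rg p j ∧ i + j = k := by
  obtain ⟨h1, h2, h3⟩ := hr
  have h4 := SumsOfRegularIndices.result p hp k hk h2 h3 _ rfl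
  have h5 : ((Finset.Ioo 0 k).filter (fun i : ℕ => ¬ ((p : ℤ) ∣ (bernoulli (2 * i)).num) ∧
      ¬ ((p : ℤ) ∣ (bernoulli (2 * (k - i))).num))).Nonempty := by
    rw [nonempty_iff_ne_empty]
    intro h6
    rw [h6] at h4
    simp at h4
    omega
  obtain ⟨i, hi⟩ := h5
  rw [mem_filter, mem_Ioo] at hi
  obtain ⟨⟨h6, h7⟩, h8, h9⟩ := hi
  exact ⟨i, k - i, ⟨by omega, by omega, h8⟩, ⟨by omega, by omega, h9⟩, by omega⟩

/-- the two statements for one prime -/
theorem one_prime (p : ℕ) (hp : p.Prime) (f s : ℝ) (hf : 3 ≤ f) (hfs : f ≤ s)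
    (hfL : f ≤ Real.log p)
    (hbig : 2 * Real.log p ^ 4 + 2 * Real.log p < Real.sqrt p)
    (hS : ∀ K : ℕ, (SparseIrregular.irregularCount p K : ℝ) ≤
      f * ((K : ℝ) ^ 2 * Real.log p / p) ^ ((1 : ℝ) + 1)) :
    (∀ k : ℕ, 2 ≤ k → (k : ℝ) ≤ p / (s * Real.log p) → ∃ i j, Rg p i ∧ Rg p j ∧ i + j = k) ∧
    (∀ k : ℕ, 3 ≤ k → 2 * k + 3 ≤ p → ∃ i j l, Rg p i ∧ Rg p j ∧ Rg p l ∧ i + j + l = k) := by
  set L := Real.log p with hL
  have hL3 : 3 ≤ L := hf.trans hfL
  have hp0 : (0 : ℝ) < p := by exact_mod_cast hp.pos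
  have hf0 : 0 < f := by linarith
  have hs0 : 0 < s := by linarith
  have hS' : ∀ K : ℕ, (SparseIrregular.irregularCount p K : ℝ) ≤
      f * ((K : ℝ) ^ 2 * L / p) ^ 2 := by
    intro K
    have h1 := hS K
    have h2 : ((1 : ℝ) + 1) = ((2 : ℕ) : ℝ) := by norm_num
    rw [h2, Real.rpow_natCast] at h1
    exact h1
  constructor
  · intro k hk hkp
    have hsL : 9 ≤ s * L := by nlinarith
    have h1 : (k : ℝ) * (s * L) ≤ p := by
      rw [le_div_iff₀ (by positivity)] at hkp
      exact hkp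
    have h2 : 2 * k + 3 ≤ p := by
      have h3 : (k : ℝ) * 9 ≤ p := by nlinarith [(Nat.cast_nonneg k : (0 : ℝ) ≤ k)]
      have h4 : k * 9 ≤ p := by exact_mod_cast h3
      omega
    obtain ⟨m, t, hm, ht1, ht2, hmt⟩ := near p hp k hk h2
    refine ⟨m, t, hm, ?_, hmt⟩
    apply reg_of_zero p t ht1 (by omega)
    have h3 := hS' t
    have h4 : (t : ℝ) ^ 2 * L / p ≤ 1 / f := by
      rw [div_le_div_iff₀ hp0 hf0]
      have h5 : ((t : ℝ)) ^ 2 ≤ k := by
        have : ((t * t : ℕ) : ℝ) ≤ k := by exact_mod_cast ht2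
        push_cast at this
        nlinarith
      have h6 : (k : ℝ) * (f * L) ≤ (k : ℝ) * (s * L) := by
        apply mul_le_mul_of_nonneg_left _ (Nat.cast_nonneg k)
        nlinarith
      nlinarith [mul_le_mul_of_nonneg_right h5 (show (0 : ℝ) ≤ f * L by positivity)]
    have h5 : 0 ≤ (t : ℝ) ^ 2 * L / p := by positivity
    have h6 : ((t : ℝ) ^ 2 * L / p) ^ 2 ≤ (1 / f) ^ 2 := pow_le_pow_left₀ h5 h4 2
    have h7 : f * (1 / f) ^ 2 = 1 / f := by field_simp
    have h8 : (SparseIrregular.irregularCount p t : ℝ) ≤ 1 / f := by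
      rw [← h7]
      exact h3.trans (mul_le_mul_of_nonneg_left h6 hf0.le)
    have h9 : 1 / f < 1 := by
      rw [div_lt_one hf0]
      linarith
    have h10 : (SparseIrregular.irregularCount p t : ℝ) < 1 := lt_of_le_of_lt h8 h9
    have h11 : SparseIrregular.irregularCount p t < 1 := by exact_mod_cast h10
    omega
  · intro k hk hkp
    obtain ⟨m, t, hm, ht1, ht2, hmt⟩ := near p hp k (by omega) hkp
    rcases Nat.lt_or_ge t 2 with ht | ht
    · have ht' : t = 1 := by omega
      subst ht'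
      obtain ⟨i, j, hi, hj, hij⟩ := two_of_reg p hp m (by omega) hm
      refine ⟨i, j, 1, hi, hj, ⟨le_refl 1, by omega, ?_⟩, by omega⟩
      have h2 : bernoulli (2 * 1) = 6⁻¹ := bernoulli_two
      rw [h2]
      have h3 : ((6 : ℚ)⁻¹).num = 1 := by norm_num
      rw [h3]
      intro h
      have := Int.le_of_dvd (by norm_num) h
      have := hp.two_le
      omega
    · have hkey : 2 * SparseIrregular.irregularCount p t + 1 < t := by
        rcases Nat.eq_zero_or_pos (SparseIrregular.irregularCount p t) with h0 | h0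
        · omega
        · have h3 := hS' t
          have htp : (t : ℝ) ^ 2 ≤ p := by
            have : t * t ≤ p := by omega
            have : ((t * t : ℕ) : ℝ) ≤ p := by exact_mod_cast this
            push_cast at this
            nlinarith
          set x := (t : ℝ) ^ 2 * L / p with hx
          have hx0 : 0 ≤ x := by positivity
          have hxL : x ≤ L := by
            rw [hx, div_le_iff₀ hp0]
            nlinarith
          have h4 : (SparseIrregular.irregularCount p t : ℝ) ≤ L ^ 3 := by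
            have h5 : x ^ 2 ≤ L ^ 2 := pow_le_pow_left₀ hx0 hxL 2
            calc (SparseIrregular.irregularCount p t : ℝ) ≤ f * x ^ 2 := h3
              _ ≤ L * L ^ 2 := mul_le_mul hfL h5 (by positivity) (by linarith)
              _ = L ^ 3 := by ring
          have h5 : (1 : ℝ) ≤ SparseIrregular.irregularCount p t := by exact_mod_cast h0
          have h6 : 1 ≤ L * x ^ 2 := by
            refine h5.trans (h3.trans ?_)
            exact mul_le_mul_of_nonneg_right hfL (by positivity)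
          -- `x ≥ 1 / L`
          have h7 : 1 ≤ L * x := by
            by_contra hlt
            push Not at hlt
            have h8 : L * x ^ 2 ≤ (L * x) ^ 2 := by
              have : (L * x) ^ 2 = L * (L * x ^ 2) := by ring
              rw [this]
              nlinarith [mul_nonneg (show (0 : ℝ) ≤ L by linarith) (sq_nonneg x)]
            have h9 : (L * x) ^ 2 < 1 := by
              have : 0 ≤ L * x := by positivity
              nlinarith
            linarith
          have h8 : (p : ℝ) ≤ (t * L) ^ 2 := by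
            rw [hx] at h7
            have h9 : L * ((t : ℝ) ^ 2 * L / p) = (t * L) ^ 2 / p := by ring
            rw [h9, le_div_iff₀ hp0, one_mul] at h7
            exact h7
          have h9 : Real.sqrt p ≤ t * L := by
            rw [Real.sqrt_le_left (by positivity)]
            exact h8
          have h10 : (2 * L ^ 3 + 2) * L < t * L := by nlinarith
          have h11 : 2 * L ^ 3 + 2 < t := lt_of_mul_lt_mul_right h10 (by linarith)
          have h12 : ((2 * SparseIrregular.irregularCount p t + 1 : ℕ) : ℝ) < t := by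
            push_cast
            linarith
          exact_mod_cast h12
      obtain ⟨i, j, hi, hj, hij⟩ := two_of_few p t (by omega) hkey
      exact ⟨m, i, j, hm, hi, hj, by omega⟩

/-- the theorem on almost all primes -/
theorem almost_all (ψ : ℕ → ℝ) (hψ : Tendsto ψ atTop atTop) :
    Tendsto (fun X : ℕ =>
      (({p : ℕ | p ≤ X ∧ p.Prime ∧
          (∀ k : ℕ, 2 ≤ k → (k : ℝ) ≤ p / (ψ p * Real.log p) →
            ∃ i j, Rg p i ∧ Rg p j ∧ i + j = k) ∧
          (∀ k : ℕ, 3 ≤ k → 2 * k + 3 ≤ p →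
            ∃ i j l, Rg p i ∧ Rg p j ∧ Rg p l ∧ i + j + l = k)}.ncard : ℕ) : ℝ)
        / (({p : ℕ | p ≤ X ∧ p.Prime}.ncard : ℕ) : ℝ)) atTop (𝓝 1) := by
  have hlog : Tendsto (fun p : ℕ => Real.log (p : ℝ)) atTop atTop :=
    Real.tendsto_log_atTop.comp tendsto_natCast_atTop_atTop
  have hbig : ∀ᶠ p : ℕ in atTop, 2 * Real.log (p : ℝ) ^ 4 + 2 * Real.log p < Real.sqrt p := by
    have h1 : (fun x : ℝ => Real.log x ^ 4) =o[atTop] fun x => Real.sqrt x := by
      have := isLittleO_log_rpow_rpow_atTop (r := 4) (s := 1 / 2) (by norm_num)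
      simpa [Real.sqrt_eq_rpow] using this
    have h2 : (fun x : ℝ => Real.log x) =o[atTop] fun x => Real.sqrt x := by
      have := isLittleO_log_rpow_atTop (r := 1 / 2) (by norm_num)
      simpa [Real.sqrt_eq_rpow] using this
    have h3 := (h1.const_mul_left 2).add (h2.const_mul_left 2)
    have h4 := h3.def (c := 1 / 2) (by norm_num)
    have h5 : ∀ᶠ x : ℝ in atTop, 2 * Real.log x ^ 4 + 2 * Real.log x < Real.sqrt x := by
      filter_upwards [h4, eventually_ge_atTop 3] with x hx hx3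
      rw [Real.norm_eq_abs, Real.norm_eq_abs] at hx
      have h6 : 0 < Real.sqrt x := Real.sqrt_pos.2 (by linarith)
      have h7 := le_abs_self (2 * Real.log x ^ 4 + 2 * Real.log x)
      rw [abs_of_pos h6] at hx
      linarith
    exact tendsto_natCast_atTop_atTop.eventually h5
  obtain ⟨P0, hP0⟩ := ((hψ.eventually_ge_atTop 3).and
    ((hlog.eventually_ge_atTop 3).and hbig)).exists_forall_of_atTop
  set ψ' : ℕ → ℝ := fun p => if p < P0 then -1 else min (ψ p) (Real.log p) with hψ'
  have hψ't : Tendsto ψ' atTop atTop := by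
    have h1 : Tendsto (fun p : ℕ => min (ψ p) (Real.log p)) atTop atTop :=
      tendsto_atTop.2 fun b => by
        filter_upwards [hψ.eventually_ge_atTop b, hlog.eventually_ge_atTop b] with p h1 h2
        exact le_min h1 h2
    refine h1.congr' ?_
    filter_upwards [eventually_ge_atTop P0] with p hp
    simp only [hψ']
    rw [if_neg (by omega)]
  have hmain := SparseIrregular.result 1 one_pos ψ' hψ't
  refine tendsto_of_tendsto_of_tendsto_of_le_of_le hmain tendsto_const_nhds ?_ ?_
  · intro X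
    apply div_le_div_of_nonneg_right _ (Nat.cast_nonneg _)
    have hfin : {p : ℕ | p ≤ X ∧ p.Prime ∧
          (∀ k : ℕ, 2 ≤ k → (k : ℝ) ≤ p / (ψ p * Real.log p) →
            ∃ i j, Rg p i ∧ Rg p j ∧ i + j = k) ∧
          (∀ k : ℕ, 3 ≤ k → 2 * k + 3 ≤ p →
            ∃ i j l, Rg p i ∧ Rg p j ∧ Rg p l ∧ i + j + l = k)}.Finite :=
      (Set.finite_Iic X).subset fun p hp => hp.1
    have hsub := Set.ncard_le_ncard (s := {p : ℕ | p ≤ X ∧ p.Prime ∧ ∀ K : ℕ,
            (SparseIrregular.irregularCount p K : ℝ) ≤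
              ψ' p * ((K : ℝ) ^ 2 * Real.log p / p) ^ ((1 : ℝ) + 1)}) (t := {p : ℕ | p ≤ X ∧ p.Prime ∧
          (∀ k : ℕ, 2 ≤ k → (k : ℝ) ≤ p / (ψ p * Real.log p) →
            ∃ i j, Rg p i ∧ Rg p j ∧ i + j = k) ∧
          (∀ k : ℕ, 3 ≤ k → 2 * k + 3 ≤ p →
            ∃ i j l, Rg p i ∧ Rg p j ∧ Rg p l ∧ i + j + l = k)}) (by
      rintro p ⟨h1, h2, h3⟩
      refine ⟨h1, h2, ?_⟩
      by_cases hp : p < P0
      · exfalso
        have h4 := h3 1
        simp only [hψ', if_pos hp] at h4
        have h5 : (0 : ℝ) < p := by exact_mod_cast h2.pos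
        have h6 : (1 : ℝ) < p := by exact_mod_cast h2.one_lt
        have h7 : 0 < Real.log p := Real.log_pos h6
        have h8 : (0 : ℝ) < (((1 : ℕ) : ℝ) ^ 2 * Real.log p / p) ^ ((1 : ℝ) + 1) := by
          apply Real.rpow_pos_of_pos
          positivity
        have h9 : (0 : ℝ) ≤ (SparseIrregular.irregularCount p 1 : ℝ) := Nat.cast_nonneg _
        linarith
      · have h4 := hP0 p (by omega)
        obtain ⟨h5, h6, h7⟩ := h4
        have h8 : ψ' p = min (ψ p) (Real.log p) := by simp only [hψ', if_neg hp]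
        rw [h8] at h3
        exact one_prime p h2 (min (ψ p) (Real.log p)) (ψ p) (le_min h5 h6) (min_le_left _ _)
          (min_le_right _ _) h7 h3) hfin
    exact Nat.cast_le.2 hsub
  · intro X
    have hfin : {p : ℕ | p ≤ X ∧ p.Prime}.Finite := (Set.finite_Iic X).subset fun p hp => hp.1
    have hsub := Set.ncard_le_ncard (s := {p : ℕ | p ≤ X ∧ p.Prime ∧
          (∀ k : ℕ, 2 ≤ k → (k : ℝ) ≤ p / (ψ p * Real.log p) →
            ∃ i j, Rg p i ∧ Rg p j ∧ i + j = k) ∧
          (∀ k : ℕ, 3 ≤ k → 2 * k + 3 ≤ p →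
            ∃ i j l, Rg p i ∧ Rg p j ∧ Rg p l ∧ i + j + l = k)}) (t := {p : ℕ | p ≤ X ∧ p.Prime})
      (fun p hp => ⟨hp.1, hp.2.1⟩) hfin
    apply div_le_one_of_le₀ _ (Nat.cast_nonneg _)
    exact Nat.cast_le.2 hsub

end Pool.Agent.H17Reg
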