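import Mathlib
import Pool.Agent.H17Reg.Sums

set_option autoImplicit false

/-!
# Sums of regular indices, for all primes
-/

namespace Pool.Agent.H17Reg

theorem bern4 : bernoulli 4 = -1 / 30 := by
  rw [bernoulli_eq_bernoulli'_of_ne_one (by norm_num)]
  exact bernoulli'_four

theorem bern6 : bernoulli 6 = 1 / 42 := by
  rw [bernoulli_eq_bernoulli'_of_ne_one (by norm_num), bernoulli'_def]
  simp only [Finset.sum_range_succ, Finset.sum_range_zero, bernoulli'_zero, bernoulli'_one,
    bernoulli'_two, bernoulli'_three, bernoulli'_four]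
  have h5 : bernoulli' 5 = 0 := bernoulli'_eq_zero_of_odd (by decide) (by norm_num)
  rw [h5]
  norm_num [Nat.choose]

theorem bern8 : bernoulli 8 = -1 / 30 := by
  rw [bernoulli_eq_bernoulli'_of_ne_one (by norm_num), bernoulli'_def]
  have h5 : bernoulli' 5 = 0 := bernoulli'_eq_zero_of_odd (by decide) (by norm_num)
  have h7 : bernoulli' 7 = 0 := bernoulli'_eq_zero_of_odd (by decide) (by norm_num)
  have h6 : bernoulli' 6 = 1 / 42 := by
    rw [← bernoulli_eq_bernoulli'_of_ne_one (by norm_num)]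
    exact bern6
  simp only [Finset.sum_range_succ, Finset.sum_range_zero, bernoulli'_zero, bernoulli'_one,
    bernoulli'_two, bernoulli'_three, bernoulli'_four, h5, h6, h7]
  norm_num [Nat.choose]

theorem bern10 : bernoulli 10 = 5 / 66 := by
  rw [bernoulli_eq_bernoulli'_of_ne_one (by norm_num), bernoulli'_def]
  have h5 : bernoulli' 5 = 0 := bernoulli'_eq_zero_of_odd (by decide) (by norm_num)
  have h7 : bernoulli' 7 = 0 := bernoulli'_eq_zero_of_odd (by decide) (by norm_num)
  have h9 : bernoulli' 9 = 0 := bernoulli'_eq_zero_of_odd (by decide) (by norm_num)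
  have h6 : bernoulli' 6 = 1 / 42 := by
    rw [← bernoulli_eq_bernoulli'_of_ne_one (by norm_num)]
    exact bern6
  have h8 : bernoulli' 8 = -1 / 30 := by
    rw [← bernoulli_eq_bernoulli'_of_ne_one (by norm_num)]
    exact bern8
  simp only [Finset.sum_range_succ, Finset.sum_range_zero, bernoulli'_zero, bernoulli'_one,
    bernoulli'_two, bernoulli'_three, bernoulli'_four, h5, h6, h7, h8, h9]
  norm_num [Nat.choose]

/-- the indices up to five are regular -/
theorem reg_small (p : ℕ) (k : ℕ) (hk1 : 1 ≤ k) (hk : k < 6) (hkp : 2 * k + 3 ≤ p) :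
    Rg p k := by
  refine ⟨hk1, hkp, ?_⟩
  have key : ∀ n : ℤ, n ≠ 0 → |n| < p → ¬ (p : ℤ) ∣ n := by
    intro n h0 h1 h2
    exact h0 (Int.eq_zero_of_abs_lt_dvd h2 h1)
  interval_cases k
  · rw [show 2 * 1 = 2 from rfl, bernoulli_two, show ((6⁻¹ : ℚ)).num = 1 by norm_num]
    exact key 1 (by norm_num) (by rw [abs_one]; omega)
  · rw [show 2 * 2 = 4 from rfl, bern4, show ((-1 / 30 : ℚ)).num = -1 by norm_num]
    exact key (-1) (by norm_num) (by rw [abs_neg, abs_one]; omega)
  · rw [show 2 * 3 = 6 from rfl, bern6, show ((1 / 42 : ℚ)).num = 1 by norm_num]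
    exact key 1 (by norm_num) (by rw [abs_one]; omega)
  · rw [show 2 * 4 = 8 from rfl, bern8, show ((-1 / 30 : ℚ)).num = -1 by norm_num]
    exact key (-1) (by norm_num) (by rw [abs_neg, abs_one]; omega)
  · rw [show 2 * 5 = 10 from rfl, bern10, show ((5 / 66 : ℚ)).num = 5 by norm_num]
    exact key 5 (by norm_num) (by
      rw [abs_of_nonneg (by norm_num)]
      omega)

theorem basis_le (p : ℕ) (hp : p.Prime) : ∀ (s k : ℕ), 1 ≤ k → 2 * k + 3 ≤ p → k < 6 ^ 2 ^ s →
    ∃ S : Multiset ℕ, Multiset.card S ≤ s + 1 ∧ (∀ i ∈ S, Rg p i) ∧ S.sum = k := by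
  intro s
  induction s with
  | zero =>
    intro k hk1 hkp hk
    exact ⟨{k}, by simp, by
      intro i hi
      rw [Multiset.mem_singleton] at hi
      subst hi
      exact reg_small p i hk1 (by simpa using hk) hkp, by simp⟩
  | succ s ih =>
    intro k hk1 hkp hk
    rcases Nat.lt_or_ge k 2 with h | h
    · exact ⟨{k}, by simp, by
        intro i hi
        rw [Multiset.mem_singleton] at hi
        subst hi
        exact reg_small p i hk1 (by omega) hkp, by simp⟩
    · obtain ⟨m, t, hm, ht1, ht2, hmt⟩ := near p hp k h hkp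
      have h2 : t < 6 ^ 2 ^ s := by
        by_contra hcon
        push Not at hcon
        have h3 : 6 ^ 2 ^ (s + 1) = 6 ^ 2 ^ s * 6 ^ 2 ^ s := by
          rw [pow_succ 2 s, mul_comm, two_mul, pow_add]
        rw [h3] at hk
        have h4 := Nat.mul_le_mul hcon hcon
        omega
      obtain ⟨S, h3, h4, h5⟩ := ih t ht1 (by omega) h2
      refine ⟨m ::ₘ S, by rw [Multiset.card_cons]; omega, ?_, by rw [Multiset.sum_cons, h5]; omega⟩
      intro i hi
      rw [Multiset.mem_cons] at hi
      rcases hi with rfl | hi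
      · exact hm
      · exact h4 i hi

theorem split (p : ℕ) (hp : p.Prime) (k n : ℕ) (hnk : n ≤ k) : ∀ (j : ℕ) (S : Multiset ℕ),
    Multiset.card S + j = n → (∀ i ∈ S, Rg p i) → S.sum = k →
    ∃ T : Multiset ℕ, Multiset.card T = n ∧ (∀ i ∈ T, Rg p i) ∧ T.sum = k := by
  intro j
  induction j with
  | zero =>
    intro S h1 h2 h3
    exact ⟨S, by omega, h2, h3⟩
  | succ j ih =>
    intro S h1 h2 h3
    obtain ⟨m, hm, hm2⟩ : ∃ m ∈ S, 2 ≤ m := by
      by_contra hcon
      push Not at hcon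
      have h4 : S.sum ≤ Multiset.card S • 1 :=
        Multiset.sum_le_card_nsmul S 1 (fun x hx => by have := hcon x hx; omega)
      rw [smul_eq_mul, mul_one] at h4
      omega
    obtain ⟨a, b, ha, hb, hab⟩ := two_of_reg p hp m hm2 (h2 m hm)
    obtain ⟨S', hS'⟩ := Multiset.exists_cons_of_mem hm
    subst hS'
    refine ih (a ::ₘ b ::ₘ S') ?_ ?_ ?_
    · rw [Multiset.card_cons, Multiset.card_cons]
      rw [Multiset.card_cons] at h1
      omega
    · intro i hi
      rw [Multiset.mem_cons, Multiset.mem_cons] at hi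
      rcases hi with rfl | rfl | hi
      · exact ha
      · exact hb
      · exact h2 i (Multiset.mem_cons_of_mem hi)
    · rw [Multiset.sum_cons, Multiset.sum_cons]
      rw [Multiset.sum_cons] at h3
      omega

theorem basis (p : ℕ) (hp : p.Prime) (s k n : ℕ) (hk1 : 1 ≤ k) (hkp : 2 * k + 3 ≤ p)
    (hk : k < 6 ^ 2 ^ s) (hn : s + 1 ≤ n) (hnk : n ≤ k) :
    ∃ T : Multiset ℕ, Multiset.card T = n ∧ (∀ i ∈ T, Rg p i) ∧ T.sum = k := by
  obtain ⟨S, h1, h2, h3⟩ := basis_le p hp s k hk1 hkp hk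
  exact split p hp k n hnk (n - Multiset.card S) S (by omega) h2 h3

end Pool.Agent.H17Reg
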