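import Mathlib
import Pool.Agent.R361.QF.HalfNe
import Pool.Agent.R361.QF.BernHalf
import Pool.Agent.TH487.RP.PV

set_option autoImplicit false

/-!
# Irregular indices in one Galois orbit of odd characters
-/

namespace Pool.Agent.H17Reg

open Finset NumberField

section

variable {p : ℕ} [hp : Fact p.Prime] (d : ℕ) [NeZero d] (K : Type) [Field K] [NumberField K]
  [IsCyclotomicExtension {d} ℚ K]

/-- a primitive `d`-th root of unity -/
noncomputable def zz : 𝓞 K := (IsCyclotomicExtension.zeta_spec d ℚ K).toInteger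

lemma zz_prim : IsPrimitiveRoot (zz d K) d :=
  (IsCyclotomicExtension.zeta_spec d ℚ K).toInteger_isPrimitiveRoot

/-- the power basis -/
noncomputable def pb : PowerBasis ℤ (𝓞 K) :=
  (IsCyclotomicExtension.zeta_spec d ℚ K).integralPowerBasis

lemma pb_gen : (pb d K).gen = zz d K :=
  (IsCyclotomicExtension.zeta_spec d ℚ K).integralPowerBasis_gen

lemma minpoly_zz : minpoly ℤ (zz d K) = Polynomial.cyclotomic d ℤ := by
  have h1 := IsCyclotomicExtension.zeta_spec d ℚ K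
  have h2 := Polynomial.cyclotomic_eq_minpoly h1 (NeZero.pos d)
  rw [h2]
  have h3 : algebraMap (𝓞 K) K (zz d K) = IsCyclotomicExtension.zeta d ℚ K := rfl
  rw [← h3]
  exact (minpoly.algebraMap_eq (RingOfIntegers.coe_injective) _).symm

/-- the homomorphism to `ZMod p` with a prescribed primitive root of unity as value -/
noncomputable def hom (w : ZMod p) (hw : IsPrimitiveRoot w d) : 𝓞 K →ₐ[ℤ] ZMod p :=
  (pb d K).lift w (by
    rw [pb_gen, minpoly_zz, Polynomial.aeval_def, Polynomial.eval₂_eq_eval_map,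
      Polynomial.map_cyclotomic]
    exact hw.isRoot_cyclotomic (NeZero.pos d))

variable {d}

lemma hom_zz (w : ZMod p) (hw : IsPrimitiveRoot w d) : hom d K w hw (zz d K) = w := by
  rw [hom, ← pb_gen]
  exact PowerBasis.lift_gen _ _ _

lemma hom_surj (w : ZMod p) (hw : IsPrimitiveRoot w d) :
    Function.Surjective (hom d K w hw).toRingHom := by
  intro x
  obtain ⟨n, rfl⟩ := ZMod.intCast_surjective x
  exact ⟨(n : 𝓞 K), by simp⟩

/-- the kernel -/
noncomputable def ker (w : ZMod p) (hw : IsPrimitiveRoot w d) : Ideal (𝓞 K) :=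
  RingHom.ker (hom d K w hw).toRingHom

lemma absNorm_ker (w : ZMod p) (hw : IsPrimitiveRoot w d) :
    Ideal.absNorm (ker K w hw) = p := by
  rw [Ideal.absNorm_apply, Submodule.cardQuot_apply]
  have e := RingHom.quotientKerEquivOfSurjective (hom_surj K w hw)
  rw [show Nat.card (𝓞 K ⧸ ker K w hw) = Nat.card (ZMod p) from Nat.card_congr e.toEquiv]
  exact Nat.card_zmod p

lemma ker_max (w : ZMod p) (hw : IsPrimitiveRoot w d) : (ker K w hw).IsMaximal :=
  RingHom.ker_isMaximal_of_surjective _ (hom_surj K w hw)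

lemma ker_inj (w w' : ZMod p) (hw : IsPrimitiveRoot w d) (hw' : IsPrimitiveRoot w' d)
    (h : ker K w hw = ker K w' hw') : w = w' := by
  obtain ⟨n, hn⟩ := ZMod.intCast_surjective w
  have h1 : zz d K - (n : 𝓞 K) ∈ ker K w hw := by
    rw [ker, RingHom.mem_ker]
    change hom d K w hw (zz d K - (n : 𝓞 K)) = 0
    rw [map_sub, hom_zz, map_intCast, hn, sub_self]
  rw [h, ker, RingHom.mem_ker] at h1
  have h2 : hom d K w' hw' (zz d K - (n : 𝓞 K)) = 0 := h1
  rw [map_sub, hom_zz, map_intCast, hn, sub_eq_zero] at h2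
  exact h2.symm

/-- If `x` is in the kernels of `r` of the homomorphisms then `p ^ r` divides its norm. -/
theorem norm_dvd (x : 𝓞 K) (W : Finset (ZMod p)) (hW : ∀ w ∈ W, IsPrimitiveRoot w d)
    (hx : ∀ w (hw : w ∈ W), hom d K w (hW w hw) x = 0) :
    p ^ W.card ∣ (Algebra.norm ℤ x).natAbs := by
  classical
  have h1 : ∀ w ∈ W.attach, ker K w.1 (hW w.1 w.2) ∣ Ideal.span {x} := by
    intro w _
    rw [Ideal.dvd_span_singleton, ker, RingHom.mem_ker]
    exact hx w.1 w.2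
  have h2 : ∏ w ∈ W.attach, ker K w.1 (hW w.1 w.2) ∣ Ideal.span {x} := by
    refine Finset.prod_dvd_of_coprime ?_ h1
    intro w _ w' _ hne
    have hm := ker_max K w.1 (hW w.1 w.2)
    have hm' := ker_max K w'.1 (hW w'.1 w'.2)
    change IsCoprime _ _
    rw [Ideal.isCoprime_iff_sup_eq]
    exact hm.coprime_of_ne hm' (fun he => hne (Subtype.ext (ker_inj K _ _ _ _ he)))
  have h3 := map_dvd Ideal.absNorm h2
  rw [map_prod, Ideal.absNorm_span_singleton] at h3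
  simpa [absNorm_ker] using h3

end

section

variable {p : ℕ} [hp : Fact p.Prime] {d g : ℕ} [NeZero d] (K : Type) [Field K] [NumberField K]
  [IsCyclotomicExtension {d} ℚ K]

lemma zz_unit (hd : p - 1 = d * g) :
    (((zz_prim d K).isUnit (NeZero.ne d)).unit) ∈
      rootsOfUnity (Fintype.card (ZMod p)ˣ) (𝓞 K) := by
  rw [mem_rootsOfUnity]
  apply Units.ext
  rw [Units.val_pow_eq_pow_val, IsUnit.unit_spec, ZMod.card_units, hd, pow_mul,
    (zz_prim d K).pow_eq_one, one_pow, Units.val_one]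

/-- the character of order `d` -/
noncomputable def chi (hd : p - 1 = d * g) (γ : (ZMod p)ˣ) (hγ : ∀ x, x ∈ Subgroup.zpowers γ) :
    MulChar (ZMod p) (𝓞 K) :=
  MulChar.ofRootOfUnity (zz_unit K hd) hγ

lemma chi_gen (hd : p - 1 = d * g) (γ : (ZMod p)ˣ) (hγ : ∀ x, x ∈ Subgroup.zpowers γ) :
    chi K hd γ hγ (γ : ZMod p) = zz d K := by
  unfold chi
  rw [MulChar.ofRootOfUnity_spec, IsUnit.unit_spec]

lemma chi_pow (hd : p - 1 = d * g) (γ : (ZMod p)ˣ) (hγ : ∀ x, x ∈ Subgroup.zpowers γ) (j : ℕ) :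
    chi K hd γ hγ ((γ : ZMod p) ^ j) = zz d K ^ j := by
  rw [map_pow, chi_gen]

lemma exists_pow (γ : (ZMod p)ˣ) (hγ : ∀ x, x ∈ Subgroup.zpowers γ) (x : ZMod p) (hx : x ≠ 0) :
    ∃ j : ℕ, (γ : ZMod p) ^ j = x := by
  obtain ⟨u, rfl⟩ := isUnit_iff_ne_zero.mpr hx
  have h1 := hγ u
  rw [← mem_powers_iff_mem_zpowers] at h1
  obtain ⟨j, hj⟩ := h1
  refine ⟨j, ?_⟩
  rw [← hj]
  simp

/-- the half sum -/
noncomputable def SS (hd : p - 1 = d * g) (γ : (ZMod p)ˣ) (hγ : ∀ x, x ∈ Subgroup.zpowers γ) :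
    𝓞 K :=
  ∑ a ∈ Icc 1 ((p - 1) / 2), chi K hd γ hγ (a : ZMod p)

lemma order_gen (γ : (ZMod p)ˣ) (hγ : ∀ x, x ∈ Subgroup.zpowers γ) :
    IsPrimitiveRoot (γ : ZMod p) (p - 1) := by
  have h1 : orderOf γ = p - 1 := by
    rw [orderOf_eq_card_of_forall_mem_zpowers hγ, Nat.card_eq_fintype_card, ZMod.card_units]
  have h2 := IsPrimitiveRoot.orderOf γ
  rw [h1] at h2
  exact IsPrimitiveRoot.coe_units_iff.2 h2

lemma hom_chi (hd : p - 1 = d * g) (γ : (ZMod p)ˣ) (hγ : ∀ x, x ∈ Subgroup.zpowers γ) (u : ℕ)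
    (hw : IsPrimitiveRoot ((γ : ZMod p) ^ (g * u)) d) (x : ZMod p) (hx : x ≠ 0) :
    hom d K _ hw (chi K hd γ hγ x) = x ^ (g * u) := by
  obtain ⟨j, rfl⟩ := exists_pow γ hγ x hx
  rw [chi_pow, map_pow, hom_zz, ← pow_mul, ← pow_mul, mul_comm]

lemma hom_SS (hp2 : p % 2 = 1) (hd : p - 1 = d * g) (γ : (ZMod p)ˣ)
    (hγ : ∀ x, x ∈ Subgroup.zpowers γ) (u : ℕ)
    (hw : IsPrimitiveRoot ((γ : ZMod p) ^ (g * u)) d) :
    hom d K _ hw (SS K hd γ hγ) = ∑ a ∈ Icc 1 ((p - 1) / 2), (a : ZMod p) ^ (g * u) := by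
  unfold SS
  rw [map_sum]
  apply sum_congr rfl
  intro a ha
  rw [mem_Icc] at ha
  apply hom_chi
  intro h0
  rw [ZMod.natCast_eq_zero_iff] at h0
  have := Nat.le_of_dvd (by omega) h0
  omega

lemma prim_pow (hd : p - 1 = d * g) (γ : (ZMod p)ˣ) (hγ : ∀ x, x ∈ Subgroup.zpowers γ) (u : ℕ)
    (hu : u.Coprime d) : IsPrimitiveRoot ((γ : ZMod p) ^ (g * u)) d := by
  have h1 := order_gen γ hγ
  have hp1 := hp.out.two_le
  have h2 : IsPrimitiveRoot ((γ : ZMod p) ^ g) d :=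
    h1.pow (by omega) (by rw [hd, mul_comm])
  rw [pow_mul]
  exact h2.pow_of_coprime u hu

/-- the indices of the orbit for which the Bernoulli number is divisible by `p` -/
noncomputable def bad (p d g : ℕ) : Finset ℕ :=
  (range d).filter (fun u => u.Coprime d ∧ g * u + 3 ≤ p ∧ (p : ℤ) ∣ (bernoulli (g * u + 1)).num)

lemma pow_inj (hd : p - 1 = d * g) (γ : (ZMod p)ˣ) (hγ : ∀ x, x ∈ Subgroup.zpowers γ) :
    Set.InjOn (fun u : ℕ => (γ : ZMod p) ^ (g * u)) (range d : Finset ℕ) := by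
  intro u hu v hv huv
  rw [coe_range, Set.mem_Iio] at hu hv
  have hp1 := hp.out.two_le
  have hg : 0 < g := by
    rcases Nat.eq_zero_or_pos g with h | h
    · rw [h, mul_zero] at hd
      omega
    · exact h
  have h1 := (order_gen γ hγ).pow_inj (i := g * u) (j := g * v)
    (by rw [hd, mul_comm d g]; exact Nat.mul_lt_mul_of_pos_left hu hg)
    (by rw [hd, mul_comm d g]; exact Nat.mul_lt_mul_of_pos_left hv hg) huv
  exact Nat.eq_of_mul_eq_mul_left hg h1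

theorem dvd_norm (hp2 : p % 2 = 1) (hd2 : 2 ≤ d) (hd : p - 1 = d * g) (γ : (ZMod p)ˣ)
    (hγ : ∀ x, x ∈ Subgroup.zpowers γ) :
    p ^ (bad p d g).card ∣ (Algebra.norm ℤ (SS K hd γ hγ)).natAbs := by
  classical
  have hp1 := hp.out.two_le
  have hg : 0 < g := by
    rcases Nat.eq_zero_or_pos g with h | h
    · rw [h, mul_zero] at hd
      omega
    · exact h
  have hsub : (bad p d g : Set ℕ) ⊆ (range d : Finset ℕ) := by
    rw [coe_subset]
    exact filter_subset _ _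
  have hcard : ((bad p d g).image (fun u : ℕ => (γ : ZMod p) ^ (g * u))).card =
      (bad p d g).card := card_image_of_injOn ((pow_inj hd γ hγ).mono hsub)
  have hW : ∀ w ∈ (bad p d g).image (fun u : ℕ => (γ : ZMod p) ^ (g * u)),
      IsPrimitiveRoot w d := by
    intro w hw
    rw [mem_image] at hw
    obtain ⟨u, hu, rfl⟩ := hw
    rw [bad, mem_filter] at hu
    exact prim_pow hd γ hγ u hu.2.1
  rw [← hcard]
  refine norm_dvd K _ _ hW ?_
  intro w hw
  obtain ⟨u, hu, hu'⟩ := mem_image.1 hw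
  subst hu'
  rw [hom_SS K hp2 hd γ hγ u]
  rw [bad, mem_filter] at hu
  obtain ⟨h1, h2, h3, h4⟩ := hu
  have hu1 : 1 ≤ u := by
    rcases Nat.eq_zero_or_pos u with h | h
    · rw [h, Nat.coprime_zero_left] at h2
      omega
    · exact h
  have := Nat.mul_pos hg hu1
  exact Pool.Agent.R361.QF.half_pow_sum p (by omega) (g * u) (by omega) h3 h4

/-- the composition with an embedding -/
noncomputable def cc (hd : p - 1 = d * g) (γ : (ZMod p)ˣ) (hγ : ∀ x, x ∈ Subgroup.zpowers γ)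
    (σ : K →ₐ[ℚ] ℂ) : DirichletCharacter ℂ p :=
  (chi K hd γ hγ).ringHomComp (σ.toRingHom.comp (algebraMap (𝓞 K) K))

lemma cc_apply (hd : p - 1 = d * g) (γ : (ZMod p)ˣ) (hγ : ∀ x, x ∈ Subgroup.zpowers γ)
    (σ : K →ₐ[ℚ] ℂ) (x : ZMod p) :
    cc K hd γ hγ σ x = σ (algebraMap (𝓞 K) K (chi K hd γ hγ x)) := rfl

lemma cc_odd (hp2 : p % 2 = 1) (hg : g % 2 = 1) (hd : p - 1 = d * g) (γ : (ZMod p)ˣ)
    (hγ : ∀ x, x ∈ Subgroup.zpowers γ) (σ : K →ₐ[ℚ] ℂ) : (cc K hd γ hγ σ).Odd := by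
  have hp1 := hp.out.two_le
  rcases DirichletCharacter.even_or_odd (cc K hd γ hγ σ) with he | ho
  · exfalso
    have h1 : cc K hd γ hγ σ (-1) = 1 := he
    have hne : (-1 : ZMod p) ≠ 0 := neg_ne_zero.2 one_ne_zero
    obtain ⟨j, hj⟩ := exists_pow γ hγ (-1) hne
    rw [cc_apply, ← hj, chi_pow] at h1
    have h2 : zz d K ^ j = 1 := by
      have hinj : Function.Injective (fun x : 𝓞 K => σ (algebraMap (𝓞 K) K x)) := by
        intro x y hxy
        exact RingOfIntegers.coe_injective (σ.toRingHom.injective hxy)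
      apply hinj
      simp only
      rw [h1]
      simp
    have h3 : d ∣ j := (zz_prim d K).dvd_of_pow_eq_one j h2
    have h4 : (γ : ZMod p) ^ (j * 2) = 1 := by
      rw [pow_mul, hj]
      ring
    have h5 : p - 1 ∣ j * 2 := (order_gen γ hγ).dvd_of_pow_eq_one _ h4
    have h6 : p - 1 ∣ j := by
      obtain ⟨m, rfl⟩ := h3
      rw [hd, mul_assoc] at h5
      rw [hd]
      have hd0 : 0 < d := NeZero.pos d
      have h7 : g ∣ m * 2 := Nat.dvd_of_mul_dvd_mul_left hd0 h5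
      have h8 : Nat.Coprime g 2 := (Nat.coprime_two_right.2 (Nat.odd_iff.2 hg))
      exact Nat.mul_dvd_mul_left d (h8.dvd_of_dvd_mul_right h7)
    obtain ⟨m, rfl⟩ := h6
    rw [pow_mul, (order_gen γ hγ).pow_eq_one, one_pow] at hj
    have h7 : (2 : ZMod p) = 0 := by
      have : (1 : ZMod p) + 1 = 0 := by
        nth_rewrite 1 [hj]
        ring
      rw [← this]; norm_num
    have h8 : ((2 : ℕ) : ZMod p) = 0 := by exact_mod_cast h7
    rw [ZMod.natCast_eq_zero_iff] at h8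
    have := Nat.le_of_dvd (by norm_num) h8
    omega
  · exact ho

lemma sigma_SS (hd : p - 1 = d * g) (γ : (ZMod p)ˣ) (hγ : ∀ x, x ∈ Subgroup.zpowers γ)
    (σ : K →ₐ[ℚ] ℂ) : σ (algebraMap (𝓞 K) K (SS K hd γ hγ)) =
      ∑ a ∈ Icc 1 ((p - 1) / 2), cc K hd γ hγ σ (a : ZMod p) := by
  unfold SS
  rw [map_sum, map_sum]
  rfl

lemma norm_SS (hd : p - 1 = d * g) (γ : (ZMod p)ˣ) (hγ : ∀ x, x ∈ Subgroup.zpowers γ) :
    (((Algebra.norm ℤ (SS K hd γ hγ)).natAbs : ℕ) : ℝ) =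
      ∏ σ : K →ₐ[ℚ] ℂ, ‖∑ a ∈ Icc 1 ((p - 1) / 2), cc K hd γ hγ σ (a : ZMod p)‖ := by
  have h1 := Algebra.norm_eq_prod_embeddings ℚ ℂ (algebraMap (𝓞 K) K (SS K hd γ hγ))
  have h2 := Algebra.coe_norm_int (SS K hd γ hγ)
  simp only [sigma_SS] at h1
  rw [← norm_prod, ← h1, ← h2, Nat.cast_natAbs]
  simp

lemma card_emb : Fintype.card (K →ₐ[ℚ] ℂ) = d.totient := by
  rw [AlgHom.card]
  exact IsCyclotomicExtension.finrank K (Polynomial.cyclotomic.irreducible_rat (NeZero.pos d))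

lemma norm_le (hp2 : p % 2 = 1) (hg : g % 2 = 1) (hd : p - 1 = d * g) (γ : (ZMod p)ˣ)
    (hγ : ∀ x, x ∈ Subgroup.zpowers γ) (σ : K →ₐ[ℚ] ℂ) :
    ‖∑ a ∈ Icc 1 ((p - 1) / 2), cc K hd γ hγ σ (a : ZMod p)‖ ≤ Real.sqrt p * Real.log p := by
  have hodd := cc_odd K hp2 hg hd γ hγ σ
  have hne : cc K hd γ hγ σ ≠ 1 := by
    intro h
    have h1 : cc K hd γ hγ σ (-1) = -1 := hodd
    have h2 : IsUnit (-1 : ZMod p) := isUnit_one.neg
    rw [h, MulChar.one_apply h2] at h1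
    norm_num at h1
  have h1 := Pool.Agent.TH487.RP.polya_vinogradov p (by rintro rfl; norm_num at hp2)
    (cc K hd γ hγ σ) hne ((p - 1) / 2 + 1)
  rw [range_eq_Ico, sum_eq_sum_Ico_succ_bot (by omega)] at h1
  rw [Nat.cast_zero, MulChar.map_zero, zero_add] at h1
  exact h1

lemma norm_le' (hd : p - 1 = d * g) (γ : (ZMod p)ˣ)
    (hγ : ∀ x, x ∈ Subgroup.zpowers γ) (σ : K →ₐ[ℚ] ℂ) :
    ‖∑ a ∈ Icc 1 ((p - 1) / 2), cc K hd γ hγ σ (a : ZMod p)‖ ≤ ((p - 1) / 2 : ℕ) := by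
  refine (norm_sum_le _ _).trans ?_
  calc ∑ a ∈ Icc 1 ((p - 1) / 2), ‖cc K hd γ hγ σ (a : ZMod p)‖
      ≤ ∑ a ∈ Icc 1 ((p - 1) / 2), (1 : ℝ) :=
        sum_le_sum fun a _ => DirichletCharacter.norm_le_one _ _
    _ = ((p - 1) / 2 : ℕ) := by simp

end

theorem orbit_bound {p : ℕ} [hp : Fact p.Prime] {d g : ℕ} [NeZero d] (K : Type) [Field K]
    [NumberField K] [IsCyclotomicExtension {d} ℚ K] (hp2 : p % 2 = 1) (hg : g % 2 = 1) (hd2 : 2 ≤ d) (hd : p - 1 = d * g) :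
    (bad p d g).card < d.totient ∧
    (p : ℝ) ^ (bad p d g).card ≤ (Real.sqrt p * Real.log p) ^ d.totient := by
  have hp1 := hp.out.two_le
  obtain ⟨γ, hγ⟩ := IsCyclic.exists_generator (α := (ZMod p)ˣ)
  have h1 := dvd_norm K hp2 hd2 hd γ hγ
  have h2 := norm_SS K hd γ hγ
  have h3 : (Algebra.norm ℤ (SS K hd γ hγ)).natAbs ≠ 0 := by
    intro h0
    rw [h0, Nat.cast_zero, eq_comm, prod_eq_zero_iff] at h2
    obtain ⟨σ, _, hσ⟩ := h2
    rw [norm_eq_zero] at hσ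
    exact Pool.Agent.R361.QF.half_ne hp2 _ (cc_odd K hp2 hg hd γ hγ σ) hσ
  have h4 := Nat.le_of_dvd (Nat.pos_of_ne_zero h3) h1
  have h5 : (p : ℝ) ^ (bad p d g).card ≤ ((Algebra.norm ℤ (SS K hd γ hγ)).natAbs : ℝ) := by
    exact_mod_cast h4
  rw [h2] at h5
  have hcard : (univ : Finset (K →ₐ[ℚ] ℂ)).card = d.totient := by
    rw [card_univ]
    exact card_emb K
  constructor
  · have h6 := prod_le_prod (s := (univ : Finset (K →ₐ[ℚ] ℂ))) (fun σ _ => norm_nonneg _)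
      (fun σ _ => norm_le' K hd γ hγ σ)
    rw [prod_const, hcard] at h6
    have h7 : (p : ℝ) ^ (bad p d g).card ≤ (((p - 1) / 2 : ℕ) : ℝ) ^ d.totient := h5.trans h6
    have h8 : p ^ (bad p d g).card ≤ ((p - 1) / 2) ^ d.totient := by exact_mod_cast h7
    have h9 : ((p - 1) / 2) ^ d.totient < p ^ d.totient :=
      Nat.pow_lt_pow_left (by omega) (Nat.totient_pos.2 (by omega)).ne'
    exact (Nat.pow_lt_pow_iff_right (by omega)).1 (lt_of_le_of_lt h8 h9)
  · have h6 := prod_le_prod (s := (univ : Finset (K →ₐ[ℚ] ℂ))) (fun σ _ => norm_nonneg _)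
      (fun σ _ => norm_le K hp2 hg hd γ hγ σ)
    rw [prod_const, hcard] at h6
    exact h5.trans h6

/-- the last theorem without the field -/
theorem orbit {p : ℕ} [hp : Fact p.Prime] {d g : ℕ} (hp2 : p % 2 = 1) (hg : g % 2 = 1)
    (hd2 : 2 ≤ d) (hd : p - 1 = d * g) :
    (bad p d g).card < d.totient ∧
    (p : ℝ) ^ (bad p d g).card ≤ (Real.sqrt p * Real.log p) ^ d.totient := by
  have : NeZero d := ⟨by omega⟩
  have h : IsCyclotomicExtension {d} ℚ (CyclotomicField d ℚ) := by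
    have h1 : @IsCyclotomicExtension {d} ℚ (CyclotomicField d ℚ) _ _
      (CyclotomicField.algebra d ℚ) := inferInstance
    convert h1
    exact Subsingleton.elim _ _
  exact orbit_bound (CyclotomicField d ℚ) hp2 hg hd2 hd

end Pool.Agent.H17Reg
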