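import Mathlib
import Pool.Agent.H17Reg.Orbit

/-!
# At most about half of the indices in a Galois orbit of odd characters are irregular

Let `p` be an odd prime and `g` an odd divisor of `p - 1`. The indices `k` with `gcd (k - 1, p - 1) = g`
correspond to the `φ((p - 1) / g)` characters of order `(p - 1) / g` modulo `p`, which are odd and
conjugate over the rational numbers. The half sum `S = ∑_{a < p/2} χ(a)` is a nonzero element of the
ring of integers of the field of the `(p - 1) / g`-th roots of unity, and it lies in one prime ideal of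
norm `p` for each of these `k` such that `p` divides the numerator of `B_k`; these ideals are
different. The norm of `S` is smaller than `(p / 2)^φ` and, by the inequality of Polya and Vinogradov,
at most `(√p log p)^φ`.
-/

set_option autoImplicit false

namespace Pool.Agent.H17Reg.GalOrb

open Finset

/-- Let `p` be an odd prime, `g` an odd divisor of `p - 1` and `φ = φ((p - 1) / g)`. The number `r` of
the irregular indices `k`, `2 ≤ k ≤ p - 3`, with `gcd (k - 1, p - 1) = g` is smaller than `φ`, at most
`(1/2 + log log p / log p) φ`, and at most `φ / 2` if `(log p)^(2 φ) < p`. -/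
theorem single (p : ℕ) (hp : p.Prime) (hp2 : p ≠ 2) (g : ℕ) (hg : Odd g) (hgp : g ∣ p - 1)
    (r : ℕ) (hr : r = ((Icc 2 (p - 3)).filter (fun k : ℕ => Nat.gcd (k - 1) (p - 1) = g ∧
      (p : ℤ) ∣ (bernoulli k).num)).card) :
    r < Nat.totient ((p - 1) / g) ∧
    (r : ℝ) ≤ (1 / 2 + Real.log (Real.log p) / Real.log p) * Nat.totient ((p - 1) / g) ∧
    (Real.log p ^ (2 * Nat.totient ((p - 1) / g)) < p → 2 * r ≤ Nat.totient ((p - 1) / g)) := by
  have : Fact p.Prime := ⟨hp⟩
  have hp1 := hp.two_le
  have hodd : p % 2 = 1 := by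
    rcases hp.eq_two_or_odd with h | h
    · exact absurd h hp2
    · exact h
  have hg1 : g % 2 = 1 := Nat.odd_iff.1 hg
  obtain ⟨d, hd⟩ : ∃ d, p - 1 = d * g := by
    obtain ⟨d, hd⟩ := hgp
    exact ⟨d, by rw [hd, mul_comm]⟩
  have hg0 : 0 < g := by omega
  have hdg : (p - 1) / g = d := by
    rw [hd]
    exact Nat.mul_div_cancel d hg0
  have hd2 : 2 ≤ d := by
    rcases Nat.lt_or_ge d 2 with h | h
    · exfalso
      interval_cases d
      · omega
      · omega
    · exact h
  have key := Pool.Agent.H17Reg.orbit (p := p) hodd hg1 hd2 hd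
  have hle : r ≤ (Pool.Agent.H17Reg.bad p d g).card := by
    rw [hr]
    refine card_le_card_of_injOn (fun k => (k - 1) / g) ?_ ?_
    · intro k hk
      rw [mem_coe, mem_filter, mem_Icc] at hk
      obtain ⟨⟨h1, h2⟩, h3, h4⟩ := hk
      have h5 : g ∣ k - 1 := by
        rw [← h3]
        exact Nat.gcd_dvd_left _ _
      obtain ⟨u, hu⟩ := h5
      have h6 : (k - 1) / g = u := by
        rw [hu]
        exact Nat.mul_div_cancel_left u hg0
      rw [mem_coe, Pool.Agent.H17Reg.bad, mem_filter, mem_range]
      simp only [h6]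
      refine ⟨?_, ?_, by omega, ?_⟩
      · by_contra hcon
        push Not at hcon
        have h7 := Nat.mul_le_mul_left g hcon
        rw [← hu, mul_comm g d, ← hd] at h7
        omega
      · have h7 : Nat.gcd (g * u) (g * d) = g := by
          rw [← hu, mul_comm g d, ← hd]
          exact h3
        rw [Nat.gcd_mul_left] at h7
        exact Nat.eq_of_mul_eq_mul_left hg0 (by rw [h7, mul_one])
      · rw [← hu, show k - 1 + 1 = k by omega]
        exact h4
    · intro k hk l hl hkl
      rw [mem_coe, mem_filter, mem_Icc] at hk hl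
      obtain ⟨⟨h1, h2⟩, h3, h4⟩ := hk
      obtain ⟨⟨h1', h2'⟩, h3', h4'⟩ := hl
      have h5 : g ∣ k - 1 := by
        rw [← h3]
        exact Nat.gcd_dvd_left _ _
      have h5' : g ∣ l - 1 := by
        rw [← h3']
        exact Nat.gcd_dvd_left _ _
      have h6 := Nat.div_mul_cancel h5
      have h6' := Nat.div_mul_cancel h5'
      simp only at hkl
      rw [hkl, h6'] at h6
      omega
  rw [hdg]
  refine ⟨lt_of_le_of_lt hle key.1, ?_⟩
  have hp3 : (3 : ℝ) ≤ p := by
    have : 3 ≤ p := by omega
    exact_mod_cast this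
  have hL : 0 < Real.log p := Real.log_pos (by linarith)
  have h1 : Real.log ((p : ℝ) ^ (Pool.Agent.H17Reg.bad p d g).card) ≤
      Real.log ((Real.sqrt p * Real.log p) ^ d.totient) :=
    Real.log_le_log (by positivity) key.2
  rw [Real.log_pow, Real.log_pow, Real.log_mul (by positivity) hL.ne', Real.log_sqrt (by positivity)]
    at h1
  have h2 : (r : ℝ) ≤ (Pool.Agent.H17Reg.bad p d g).card := by exact_mod_cast hle
  have h3 : (r : ℝ) * Real.log p ≤
      ((1 / 2 + Real.log (Real.log p) / Real.log p) * d.totient) * Real.log p := by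
    have h4 : ((1 / 2 + Real.log (Real.log p) / Real.log p) * d.totient) * Real.log p =
        d.totient * (Real.log p / 2 + Real.log (Real.log p)) := by
      field_simp
    rw [h4]
    exact (mul_le_mul_of_nonneg_right h2 hL.le).trans h1
  refine ⟨le_of_mul_le_mul_right h3 hL, ?_⟩
  intro hlt
  by_contra hcon
  have h5 : d.totient + 1 ≤ 2 * (Pool.Agent.H17Reg.bad p d g).card := by omega
  have h6 : ((p : ℝ) ^ (Pool.Agent.H17Reg.bad p d g).card) ^ 2 ≤
      ((Real.sqrt p * Real.log p) ^ d.totient) ^ 2 :=
    pow_le_pow_left₀ (by positivity) key.2 2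
  have h7 : ((Real.sqrt p * Real.log p) ^ d.totient) ^ 2 =
      (p : ℝ) ^ d.totient * Real.log p ^ (2 * d.totient) := by
    rw [← pow_mul, mul_comm d.totient 2, mul_pow]
    congr 1
    rw [pow_mul, Real.sq_sqrt (by positivity)]
  rw [h7, ← pow_mul, mul_comm _ 2] at h6
  have h8 : (p : ℝ) ^ (d.totient + 1) ≤ (p : ℝ) ^ (2 * (Pool.Agent.H17Reg.bad p d g).card) :=
    pow_le_pow_right₀ (by linarith) h5
  rw [pow_succ] at h8
  have h9 := h8.trans h6
  have h10 : (0 : ℝ) < (p : ℝ) ^ d.totient := by positivity
  exact absurd (le_of_mul_le_mul_left h9 h10) (not_le.2 hlt)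

end Pool.Agent.H17Reg.GalOrb
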