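import Mathlib
import Pool.Agent.H332R2.IrrCount

set_option autoImplicit false

/-!
# Regular indices in a given set, for almost all primes
-/

namespace Pool.Agent.H17Reg

open Finset Filter Topology Pool.Agent.H332R2

/-- the sum of the positive elements of `A` up to `m` -/
noncomputable def sumUpTo (A : Set ℕ) (m : ℕ) : ℕ := by
  classical
  exact ∑ a ∈ (Icc 1 m).filter (fun a => a ∈ A), a

theorem sumUpTo_mono (A : Set ℕ) {m n : ℕ} (h : m ≤ n) : sumUpTo A m ≤ sumUpTo A n := by
  classical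
  unfold sumUpTo
  exact sum_le_sum_of_subset (filter_subset_filter _ (Icc_subset_Icc_right h))

theorem le_sumUpTo (A : Set ℕ) {m : ℕ} (h1 : 1 ≤ m) (h : m ∈ A) : m ≤ sumUpTo A m := by
  classical
  unfold sumUpTo
  exact single_le_sum (f := fun a => a) (fun i _ => Nat.zero_le i)
    (mem_filter.2 ⟨mem_Icc.2 ⟨h1, le_refl m⟩, h⟩)

/-- `p` is good for `A` -/
def GoodFor (A : Set ℕ) (ψ : ℕ → ℝ) (p : ℕ) : Prop :=
  ∀ m : ℕ, 1 ≤ m → m ∈ A → (sumUpTo A m : ℝ) * (ψ p * Real.log p) ≤ p →
    ¬ (p : ℤ) ∣ (bernoulli (2 * m)).num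

theorem count_bad (A : Set ℕ) (ψ : ℕ → ℝ) (T : ℝ) (hT : 2 ≤ T) (X : ℕ) (hX : 4 ≤ X)
    (P : Finset ℕ) (hP : ∀ p ∈ P, p.Prime ∧ p ≤ X ∧ X ≤ p * p ∧ T ≤ ψ p ∧ ¬ GoodFor A ψ p) :
    (P.card : ℝ) * T * Real.log X ≤ 16 * X := by
  classical
  have hX0 : (0 : ℝ) < X := by positivity
  have hX4 : (4 : ℝ) ≤ X := by exact_mod_cast hX
  have hL0 : 0 < Real.log X := Real.log_pos (by linarith)
  set Y : ℝ := 2 * X / (T * Real.log X) with hY
  set M : Finset ℕ := (Icc 1 X).filter (fun m => m ∈ A ∧ (sumUpTo A m : ℝ) ≤ Y) with hM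
  -- the sum of the elements of `M`
  have hMs : (∑ m ∈ M, (m : ℝ)) ≤ Y := by
    rcases M.eq_empty_or_nonempty with h | h
    · rw [h, sum_empty]
      positivity
    · have h1 := M.max'_mem h
      set m1 := M.max' h with hm1
      rw [hM, mem_filter] at h1
      refine le_trans ?_ h1.2.2
      unfold sumUpTo
      push_cast
      refine sum_le_sum_of_subset_of_nonneg ?_ (fun i _ _ => Nat.cast_nonneg i)
      intro m hm
      have h2 : m ≤ m1 := M.le_max' m hm
      rw [hM, mem_filter, mem_Icc] at hm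
      rw [mem_filter, mem_Icc]
      exact ⟨⟨hm.1.1, h2⟩, hm.2.1⟩
  have hsub : P ⊆ M.biUnion (fun m => P.filter (fun p => p ∣ nu m)) := by
    intro p hp
    obtain ⟨hpp, hpX, hXp, hTp, hbad⟩ := hP p hp
    unfold GoodFor at hbad
    push Not at hbad
    obtain ⟨m, hm1, hmA, hmS, hmd⟩ := hbad
    rw [dvd_nu_iff] at hmd
    rw [mem_biUnion]
    have hp0 : (0 : ℝ) < p := by exact_mod_cast hpp.pos
    have hp1 : (1 : ℝ) < p := by exact_mod_cast hpp.one_lt
    have hlp : 0 < Real.log p := Real.log_pos hp1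
    have hlp2 : Real.log X ≤ 2 * Real.log p := by
      have h1 : (X : ℝ) ≤ (p : ℝ) ^ 2 := by
        have : ((X : ℕ) : ℝ) ≤ ((p * p : ℕ) : ℝ) := by exact_mod_cast hXp
        push_cast at this
        nlinarith
      have h2 := Real.log_le_log hX0 h1
      rw [Real.log_pow] at h2
      push_cast at h2
      exact h2
    have hS : (sumUpTo A m : ℝ) ≤ Y := by
      rw [hY, le_div_iff₀ (by positivity)]
      have h1 : (sumUpTo A m : ℝ) * (T * Real.log X) ≤
          (sumUpTo A m : ℝ) * (ψ p * (2 * Real.log p)) := by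
        apply mul_le_mul_of_nonneg_left _ (Nat.cast_nonneg _)
        exact mul_le_mul hTp hlp2 hL0.le (by linarith)
      have h2 : (p : ℝ) ≤ X := by exact_mod_cast hpX
      nlinarith
    have hmX : m ≤ X := by
      have h1 : (m : ℝ) ≤ sumUpTo A m := by exact_mod_cast le_sumUpTo A hm1 hmA
      have h2 : Y ≤ X := by
        rw [hY, div_le_iff₀ (by positivity)]
        have h3 : 1 ≤ Real.log X := by
          rw [Real.le_log_iff_exp_le hX0]
          have := Real.exp_one_lt_d9
          linarith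
        have h4 : 2 ≤ T * Real.log X := by nlinarith
        nlinarith
      have h3 : (m : ℝ) ≤ X := h1.trans (hS.trans h2)
      exact_mod_cast h3
    refine ⟨m, ?_, ?_⟩
    · rw [hM, mem_filter, mem_Icc]
      exact ⟨⟨hm1, hmX⟩, hmA, hS⟩
    · rw [mem_filter]
      exact ⟨hp, hmd⟩
  have h1 : (P.card : ℝ) ≤ ∑ m ∈ M, ((P.filter (fun p => p ∣ nu m)).card : ℝ) := by
    exact_mod_cast (card_le_card hsub).trans card_biUnion_le
  have hsq : 1 ≤ Real.sqrt X := by
    rw [Real.one_le_sqrt]
    linarith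
  have hlogsq : Real.log (Real.sqrt X) = Real.log X / 2 := Real.log_sqrt hX0.le
  have h2 : ∀ m ∈ M, ((P.filter (fun p => p ∣ nu m)).card : ℝ) * (Real.log X / 2) ≤
      4 * Real.log X * m := by
    intro m hm
    rw [hM, mem_filter, mem_Icc] at hm
    have h3 := card_primes_dvd (nu m) (nu_ne_zero m) (Real.sqrt X) hsq
      (P.filter (fun p => p ∣ nu m)) (fun p hp => by
        rw [mem_filter] at hp
        obtain ⟨h4, h5, h6, _, _⟩ := hP p hp.1
        refine ⟨h4, ?_, hp.2⟩
        rw [Real.sqrt_le_left (by positivity)]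
        have : ((X : ℕ) : ℝ) ≤ ((p * p : ℕ) : ℝ) := by exact_mod_cast h6
        push_cast at this
        nlinarith)
    rw [hlogsq] at h3
    have h4 := log_nu_le m (by omega)
    have hm0 : (0 : ℝ) < m := by
      have : 0 < m := by omega
      exact_mod_cast this
    have h5 : Real.log (2 * m) ≤ 2 * Real.log X := by
      have h6 : (2 * (m : ℝ)) ≤ (X : ℝ) ^ 2 := by
        have h7 : (m : ℝ) ≤ X := by exact_mod_cast hm.1.2
        nlinarith
      have h8 := Real.log_le_log (by positivity) h6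
      rw [Real.log_pow] at h8
      push_cast at h8
      exact h8
    have h6 : 2 * (m : ℝ) * Real.log (2 * m) ≤ 2 * m * (2 * Real.log X) :=
      mul_le_mul_of_nonneg_left h5 (by positivity)
    linarith
  have h3 : (P.card : ℝ) * (Real.log X / 2) ≤ 4 * Real.log X * Y := by
    calc (P.card : ℝ) * (Real.log X / 2)
        ≤ (∑ m ∈ M, ((P.filter (fun p => p ∣ nu m)).card : ℝ)) * (Real.log X / 2) :=
          mul_le_mul_of_nonneg_right h1 (by positivity)
      _ = ∑ m ∈ M, ((P.filter (fun p => p ∣ nu m)).card : ℝ) * (Real.log X / 2) := by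
          rw [sum_mul]
      _ ≤ ∑ m ∈ M, 4 * Real.log X * m := sum_le_sum h2
      _ = 4 * Real.log X * ∑ m ∈ M, (m : ℝ) := by rw [mul_sum]
      _ ≤ 4 * Real.log X * Y := mul_le_mul_of_nonneg_left hMs (by positivity)
  have h4 : (P.card : ℝ) ≤ 8 * Y := by
    have h5 : (P.card : ℝ) * (Real.log X / 2) ≤ (8 * Y) * (Real.log X / 2) := by
      rw [show (8 * Y) * (Real.log X / 2) = 4 * Real.log X * Y by ring]
      exact h3
    exact le_of_mul_le_mul_right h5 (by positivity)
  have h5 : Y * (T * Real.log X) = 2 * X := by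
    rw [hY]
    field_simp
  calc (P.card : ℝ) * T * Real.log X = (P.card : ℝ) * (T * Real.log X) := by ring
    _ ≤ (8 * Y) * (T * Real.log X) := mul_le_mul_of_nonneg_right h4 (by positivity)
    _ = 16 * X := by rw [mul_assoc, h5]; ring

theorem almost_all_sets (A : Set ℕ) (ψ : ℕ → ℝ) (hψ : Tendsto ψ atTop atTop) :
    Tendsto (fun X : ℕ =>
      (({p : ℕ | p ≤ X ∧ p.Prime ∧ GoodFor A ψ p}.ncard : ℕ) : ℝ)
        / (({p : ℕ | p ≤ X ∧ p.Prime}.ncard : ℕ) : ℝ)) atTop (𝓝 1) := by
  classical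
  have hcount : ∀ X : ℕ, {p : ℕ | p ≤ X ∧ p.Prime}.ncard =
      ((Finset.range (X + 1)).filter Nat.Prime).card := by
    intro X
    rw [← Set.ncard_coe_finset]
    congr 1
    ext p
    simp
  have hgood : ∀ X : ℕ, {p : ℕ | p ≤ X ∧ p.Prime ∧ GoodFor A ψ p}.ncard =
      ((Finset.range (X + 1)).filter (fun p => p.Prime ∧ GoodFor A ψ p)).card := by
    intro X
    rw [← Set.ncard_coe_finset]
    congr 1
    ext p
    simp
  have hpart : ∀ X : ℕ, ((Finset.range (X + 1)).filter (fun p => p.Prime ∧ GoodFor A ψ p)).card +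
      ((Finset.range (X + 1)).filter (fun p => p.Prime ∧ ¬ GoodFor A ψ p)).card =
      ((Finset.range (X + 1)).filter Nat.Prime).card := by
    intro X
    have := Finset.card_filter_add_card_filter_not (s := (Finset.range (X + 1)).filter Nat.Prime)
      (fun p => GoodFor A ψ p)
    rw [Finset.filter_filter, Finset.filter_filter] at this
    exact this
  -- few bad primes
  have hfew : ∀ ε : ℝ, 0 < ε → ∀ᶠ X : ℕ in atTop,
      (((Finset.range (X + 1)).filter (fun p => p.Prime ∧ ¬ GoodFor A ψ p)).card : ℝ) ≤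
        ε * (((Finset.range (X + 1)).filter Nat.Prime).card : ℝ) := by
    intro ε hε
    obtain ⟨T, hT2, hTε⟩ : ∃ T : ℝ, 2 ≤ T ∧ 16 / T ≤ ε / 4 := by
      refine ⟨max 2 (64 / ε), le_max_left _ _, ?_⟩
      have h1 : 64 / ε ≤ max 2 (64 / ε) := le_max_right _ _
      have h2 : (0 : ℝ) < max 2 (64 / ε) := lt_of_lt_of_le two_pos (le_max_left _ _)
      rw [div_le_div_iff₀ h2 (by norm_num)]
      rw [div_le_iff₀ hε] at h1
      linarith
    obtain ⟨p0, hp0⟩ := (hψ.eventually_ge_atTop T).exists_forall_of_atTop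
    have hsqrt : ∀ᶠ X : ℕ in atTop, (Real.sqrt X + 1) * Real.log X ≤ ε / 4 * X := by
      have h1 : (fun x : ℝ => Real.log x) =o[atTop] fun x => x ^ ((1 : ℝ) / 2) :=
        isLittleO_log_rpow_atTop (by norm_num)
      have h2 := h1.def (c := ε / 8) (by positivity)
      have h3 : ∀ᶠ x : ℝ in atTop, (Real.sqrt x + 1) * Real.log x ≤ ε / 4 * x := by
        filter_upwards [h2, eventually_ge_atTop 3] with x hx hx3
        have hx0 : 0 < x := by linarith
        have hsq1 : 1 ≤ Real.sqrt x := by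
          rw [Real.one_le_sqrt]
          linarith
        have hl : 0 < Real.log x := Real.log_pos (by linarith)
        rw [← Real.sqrt_eq_rpow, Real.norm_eq_abs, Real.norm_eq_abs, abs_of_pos hl,
          abs_of_pos (by linarith)] at hx
        have h4 : Real.sqrt x * Real.sqrt x = x := Real.mul_self_sqrt hx0.le
        calc (Real.sqrt x + 1) * Real.log x ≤ (2 * Real.sqrt x) * Real.log x := by
              apply mul_le_mul_of_nonneg_right _ hl.le
              linarith
          _ ≤ (2 * Real.sqrt x) * (ε / 8 * Real.sqrt x) :=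
              mul_le_mul_of_nonneg_left hx (by positivity)
          _ = ε / 4 * (Real.sqrt x * Real.sqrt x) := by ring
          _ = ε / 4 * x := by rw [h4]
      exact tendsto_natCast_atTop_atTop.eventually h3
    filter_upwards [pi_lower, hsqrt, eventually_ge_atTop (max 4 (p0 * p0))] with X hX1 hX2 hX3
    have hX4 : 4 ≤ X := (le_max_left _ _).trans hX3
    have hXp0 : p0 * p0 ≤ X := (le_max_right _ _).trans hX3
    have hX0 : (0 : ℝ) < X := by positivity
    have hX4' : (4 : ℝ) ≤ X := by exact_mod_cast hX4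
    have hL0 : 0 < Real.log X := Real.log_pos (by linarith)
    set Bd := (Finset.range (X + 1)).filter (fun p => p.Prime ∧ ¬ GoodFor A ψ p) with hBd
    set P := Bd.filter (fun p => X ≤ p * p) with hPdef
    have h1 := count_bad A ψ T hT2 X hX4 P (fun p hp => by
      rw [hPdef, mem_filter, hBd, mem_filter, mem_range] at hp
      obtain ⟨⟨h1, h2, h3⟩, h4⟩ := hp
      refine ⟨h2, by omega, h4, ?_, h3⟩
      apply hp0
      by_contra hcon
      push Not at hcon
      have : p * p < p0 * p0 := Nat.mul_self_lt_mul_self hcon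
      omega)
    have h2 : Bd.card ≤ P.card + (Nat.sqrt X + 1) := by
      have h3 : Bd ⊆ P ∪ Finset.range (Nat.sqrt X + 1) := by
        intro p hp
        rw [mem_union]
        by_cases h4 : X ≤ p * p
        · left
          rw [hPdef, mem_filter]
          exact ⟨hp, h4⟩
        · right
          rw [mem_range]
          push Not at h4
          have := Nat.le_sqrt.2 h4.le
          omega
      refine (card_le_card h3).trans ((card_union_le _ _).trans ?_)
      rw [card_range]
    have h3 : (Bd.card : ℝ) ≤ P.card + (Real.sqrt X + 1) := by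
      have h4 : (Bd.card : ℝ) ≤ P.card + ((Nat.sqrt X : ℕ) + 1) := by exact_mod_cast h2
      have h5 := Real.nat_sqrt_le_real_sqrt (a := X)
      linarith
    have hT0 : (0 : ℝ) < T := by linarith
    have h4 : (P.card : ℝ) * Real.log X ≤ 16 / T * X := by
      rw [div_mul_eq_mul_div, le_div_iff₀ hT0]
      linarith
    have h5 : (Bd.card : ℝ) * Real.log X ≤ ε / 2 * X := by
      have h6 : (Bd.card : ℝ) * Real.log X ≤ (P.card + (Real.sqrt X + 1)) * Real.log X :=
        mul_le_mul_of_nonneg_right h3 hL0.le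
      have h7 : 16 / T * X ≤ ε / 4 * X := mul_le_mul_of_nonneg_right hTε hX0.le
      nlinarith
    have h6 : (Bd.card : ℝ) ≤ ε * (X / (2 * Real.log X)) := by
      rw [← mul_div_assoc, le_div_iff₀ (by positivity)]
      linarith
    exact h6.trans (mul_le_mul_of_nonneg_left hX1 hε.le)
  rw [Metric.tendsto_atTop']
  intro ε hε
  obtain ⟨X0, hX0⟩ := (hfew (ε / 2) (by positivity)).exists_forall_of_atTop
  refine ⟨max X0 2, fun X hX => ?_⟩
  have hX1 : X0 ≤ X := le_of_lt (lt_of_le_of_lt (le_max_left _ _) hX)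
  have hX2 : 2 ≤ X := le_of_lt (lt_of_le_of_lt (le_max_right _ _) hX)
  have h1 := hX0 X hX1
  rw [hgood, hcount]
  have h2 := hpart X
  set G := ((Finset.range (X + 1)).filter (fun p => p.Prime ∧ GoodFor A ψ p)).card with hG
  set Bd := ((Finset.range (X + 1)).filter (fun p => p.Prime ∧ ¬ GoodFor A ψ p)).card with hBd
  set P := ((Finset.range (X + 1)).filter Nat.Prime).card with hP
  have hPpos : 0 < P := by
    rw [hP, Finset.card_pos]
    exact ⟨2, by rw [Finset.mem_filter, Finset.mem_range]; exact ⟨by omega, Nat.prime_two⟩⟩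
  have hPr : (0 : ℝ) < P := by exact_mod_cast hPpos
  have h3 : (G : ℝ) + Bd = P := by exact_mod_cast h2
  rw [Real.dist_eq]
  have h4 : (G : ℝ) / P - 1 = - (Bd / P) := by
    field_simp; linarith
  rw [h4, abs_neg, abs_of_nonneg (by positivity), div_lt_iff₀ hPr]
  nlinarith

end Pool.Agent.H17Reg
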