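import Mathlib
import Pool.Agent.H17Reg.Orbit

set_option autoImplicit false

/-!
# The bound of Skula for the index of irregularity
-/

namespace Pool.Agent.H17Reg.Sk

open Finset NumberField Pool.Agent.H17Reg

section norm

variable {p : ℕ} [hp : Fact p.Prime] {d : ℕ} [NeZero d] (K : Type) [Field K] [NumberField K]
  [IsCyclotomicExtension {d} ℚ K]

theorem norm_dvd' (x : 𝓞 K) (r : ℕ) (W : Finset (ZMod p)) (hW : ∀ w ∈ W, IsPrimitiveRoot w d)
    (hx : ∀ w (hw : w ∈ W), ker K w (hW w hw) ^ r ∣ Ideal.span {x}) :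
    p ^ (r * W.card) ∣ (Algebra.norm ℤ x).natAbs := by
  classical
  have h2 : ∏ w ∈ W.attach, ker K w.1 (hW w.1 w.2) ^ r ∣ Ideal.span {x} := by
    refine Finset.prod_dvd_of_coprime ?_ (fun w _ => hx w.1 w.2)
    intro w _ w' _ hne
    have hm := ker_max K w.1 (hW w.1 w.2)
    have hm' := ker_max K w'.1 (hW w'.1 w'.2)
    change IsCoprime _ _
    apply IsCoprime.pow
    rw [Ideal.isCoprime_iff_sup_eq]
    exact hm.coprime_of_ne hm' (fun he => hne (Subtype.ext (ker_inj K _ _ _ _ he)))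
  have h3 := map_dvd Ideal.absNorm h2
  rw [map_prod, Ideal.absNorm_span_singleton] at h3
  simpa [absNorm_ker, pow_mul] using h3

end norm

section

variable {p : ℕ} [hp : Fact p.Prime] [NeZero (p - 1)] (K : Type) [Field K] [NumberField K]
  [IsCyclotomicExtension {p - 1} ℚ K]

/-- the half sum of the power `2 j + 1` -/
noncomputable def S (γ : (ZMod p)ˣ) (hγ : ∀ x, x ∈ Subgroup.zpowers γ) (j : ℕ) : 𝓞 K :=
  ∑ a ∈ Icc 1 ((p - 1) / 2), chi K (g := 1) (mul_one (p - 1)).symm γ hγ (a : ZMod p) ^ (2 * j + 1)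

lemma cast_ne (a : ℕ) (ha : a ∈ Icc 1 ((p - 1) / 2)) : (a : ZMod p) ≠ 0 := by
  rw [mem_Icc] at ha
  intro h0
  rw [ZMod.natCast_eq_zero_iff] at h0
  have := Nat.le_of_dvd (by omega) h0
  omega

lemma hom_S (hp2 : p % 2 = 1) (γ : (ZMod p)ˣ) (hγ : ∀ x, x ∈ Subgroup.zpowers γ) (k : ℕ)
    (hw : IsPrimitiveRoot ((γ : ZMod p) ^ (1 * k)) (p - 1)) (j : ℕ)
    (hj : (k * (2 * j + 1)) % (p - 1) + 3 ≤ p) (hk1 : 1 ≤ (k * (2 * j + 1)) % (p - 1))
    (hb : (p : ℤ) ∣ (bernoulli ((k * (2 * j + 1)) % (p - 1) + 1)).num) :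
    hom (p - 1) K _ hw (S K γ hγ j) = 0 := by
  have h3 : 3 ≤ p := by omega
  rw [← Pool.Agent.R361.QF.half_pow_sum p h3 _ hk1 hj hb]
  unfold S
  rw [map_sum]
  apply sum_congr rfl
  intro a ha
  have hne := cast_ne a ha
  rw [map_pow, hom_chi K _ γ hγ k hw _ hne, one_mul, ← pow_mul]
  conv_lhs => rw [← Nat.div_add_mod (k * (2 * j + 1)) (p - 1), pow_add, pow_mul,
    ZMod.pow_card_sub_one_eq_one hne, one_pow, one_mul]

/-- the irregular indices -/
noncomputable def irr (p : ℕ) : Finset ℕ :=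
  (range ((p - 1) / 2)).filter (fun j => 2 * j + 4 ≤ p ∧ (p : ℤ) ∣ (bernoulli (2 * j + 2)).num)

/-- the permutation of the odd residues -/
def per (p k j : ℕ) : ℕ := ((k * (2 * j + 1)) % (p - 1)) / 2

omit hp [NeZero (p - 1)] in
lemma odd_mod (hp2 : p % 2 = 1) (k j : ℕ) (hk : k.Coprime (p - 1)) (hp1 : 3 ≤ p) :
    ((k * (2 * j + 1)) % (p - 1)) % 2 = 1 := by
  have h2 : 2 ∣ p - 1 := by omega
  rw [Nat.mod_mod_of_dvd _ h2, Nat.mul_mod]
  have hk2 : k % 2 = 1 := by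
    have := Nat.Coprime.coprime_dvd_right h2 hk
    exact Nat.odd_iff.1 (Nat.coprime_two_right.1 this)
  have : (2 * j + 1) % 2 = 1 := by omega
  rw [hk2, this]

omit hp [NeZero (p - 1)] in
lemma per_spec (hp2 : p % 2 = 1) (k j : ℕ) (hk : k.Coprime (p - 1)) (hp1 : 3 ≤ p) :
    2 * per p k j + 1 = (k * (2 * j + 1)) % (p - 1) := by
  have := odd_mod hp2 k j hk hp1
  unfold per
  omega

omit hp [NeZero (p - 1)] in
lemma per_lt (hp2 : p % 2 = 1) (k j : ℕ) (hk : k.Coprime (p - 1)) (hp1 : 3 ≤ p) :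
    per p k j < (p - 1) / 2 := by
  have h1 := per_spec hp2 k j hk hp1
  have h2 := Nat.mod_lt (k * (2 * j + 1)) (by omega : p - 1 > 0)
  omega

omit hp [NeZero (p - 1)] in
lemma per_image (hp2 : p % 2 = 1) (k : ℕ) (hk : k.Coprime (p - 1)) (hp1 : 3 ≤ p) :
    (range ((p - 1) / 2)).image (per p k) = range ((p - 1) / 2) := by
  apply Finset.eq_of_subset_of_card_le
  · intro x hx
    rw [mem_image] at hx
    obtain ⟨j, -, rfl⟩ := hx
    exact mem_range.2 (per_lt hp2 k j hk hp1)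
  · rw [card_image_of_injOn]
    intro i hi j hj hij
    rw [coe_range, Set.mem_Iio] at hi hj
    have h1 := per_spec hp2 k i hk hp1
    have h2 := per_spec hp2 k j hk hp1
    rw [hij, h2] at h1
    have h3 : k * (2 * j + 1) ≡ k * (2 * i + 1) [MOD (p - 1)] := h1
    have h4 := Nat.ModEq.cancel_left_of_coprime (by rw [Nat.gcd_comm]; exact hk) h3
    have h5 := Nat.ModEq.eq_of_lt_of_lt h4 (by omega) (by omega)
    omega

omit hp [NeZero (p - 1)] in
lemma card_pre (hp2 : p % 2 = 1) (k : ℕ) (hk : k.Coprime (p - 1)) (hp1 : 3 ≤ p) :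
    (irr p).card ≤ ((range ((p - 1) / 2)).filter (fun j => per p k j ∈ irr p)).card := by
  have h1 : irr p ⊆ ((range ((p - 1) / 2)).filter (fun j => per p k j ∈ irr p)).image (per p k) := by
    intro x hx
    have h2 : x ∈ range ((p - 1) / 2) := (mem_filter.1 hx).1
    rw [← per_image hp2 k hk hp1, mem_image] at h2
    obtain ⟨j, hj, rfl⟩ := h2
    exact mem_image.2 ⟨j, mem_filter.2 ⟨hj, hx⟩, rfl⟩
  exact (card_le_card h1).trans card_image_le

/-- the product -/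
noncomputable def T (γ : (ZMod p)ˣ) (hγ : ∀ x, x ∈ Subgroup.zpowers γ) : 𝓞 K :=
  ∏ j ∈ range ((p - 1) / 2), S K γ hγ j

lemma T_mem (hp2 : p % 2 = 1) (γ : (ZMod p)ˣ) (hγ : ∀ x, x ∈ Subgroup.zpowers γ) (k : ℕ)
    (hk : k.Coprime (p - 1)) (hw : IsPrimitiveRoot ((γ : ZMod p) ^ (1 * k)) (p - 1)) :
    ker K _ hw ^ (irr p).card ∣ Ideal.span {T K γ hγ} := by
  classical
  have hp1 : 3 ≤ p := by
    have := hp.out.two_le
    omega
  refine (pow_dvd_pow _ (card_pre hp2 k hk hp1)).trans ?_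
  unfold T
  rw [← Ideal.prod_span_singleton, ← prod_const]
  refine (Finset.prod_dvd_prod_of_dvd _ (fun j => Ideal.span {S K γ hγ j}) ?_).trans
    (Finset.prod_dvd_prod_of_subset _ _ _ (filter_subset _ _))
  intro j hj
  rw [mem_filter] at hj
  obtain ⟨-, hj⟩ := hj
  rw [irr, mem_filter] at hj
  obtain ⟨-, h1, h2⟩ := hj
  have h3 := per_spec hp2 k j hk hp1
  rw [Ideal.dvd_span_singleton, ker, RingHom.mem_ker]
  change hom (p - 1) K _ hw (S K γ hγ j) = 0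
  apply hom_S K hp2 γ hγ k hw j
  · omega
  · omega
  · rw [← h3]
    exact h2

theorem T_norm (hp2 : p % 2 = 1) (γ : (ZMod p)ˣ) (hγ : ∀ x, x ∈ Subgroup.zpowers γ) :
    p ^ ((irr p).card * (p - 1).totient) ∣ (Algebra.norm ℤ (T K γ hγ)).natAbs := by
  classical
  have hp1 := hp.out.two_le
  have hc : (((range (p - 1)).filter (fun k => k.Coprime (p - 1))).image
      (fun k : ℕ => (γ : ZMod p) ^ (1 * k))).card = (p - 1).totient := by
    rw [card_image_of_injOn ((pow_inj (g := 1) (mul_one (p - 1)).symm γ hγ).mono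
      (by rw [coe_subset]; exact filter_subset _ _))]
    rw [Nat.totient_eq_card_coprime]
    congr 1
    apply filter_congr
    intro k _
    exact Nat.coprime_comm
  rw [← hc]
  have hW : ∀ w ∈ ((range (p - 1)).filter (fun k => k.Coprime (p - 1))).image
      (fun k : ℕ => (γ : ZMod p) ^ (1 * k)), IsPrimitiveRoot w (p - 1) := by
    intro w hw
    rw [mem_image] at hw
    obtain ⟨k, hk, rfl⟩ := hw
    exact prim_pow (mul_one (p - 1)).symm γ hγ k (mem_filter.1 hk).2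
  refine norm_dvd' K _ _ _ hW ?_
  intro w hw
  obtain ⟨k, hk, hk'⟩ := mem_image.1 hw
  subst hk'
  exact T_mem K hp2 γ hγ k (mem_filter.1 hk).2 _

/-! ### the absolute values -/

lemma cc_one (γ : (ZMod p)ˣ) (hγ : ∀ x, x ∈ Subgroup.zpowers γ) (σ : K →ₐ[ℚ] ℂ) (x : ZMod p)
    (hx : x ≠ 0) (h : cc K (g := 1) (mul_one (p - 1)).symm γ hγ σ x = 1) : x = 1 := by
  obtain ⟨j, rfl⟩ := exists_pow γ hγ x hx
  rw [cc_apply, chi_pow] at h
  have h2 : zz (p - 1) K ^ j = 1 := by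
    have hinj : Function.Injective (fun x : 𝓞 K => σ (algebraMap (𝓞 K) K x)) := by
      intro x y hxy
      exact RingOfIntegers.coe_injective (σ.toRingHom.injective hxy)
    apply hinj
    simp only
    rw [h]
    simp
  obtain ⟨m, rfl⟩ := (zz_prim (p - 1) K).dvd_of_pow_eq_one j h2
  rw [pow_mul, (order_gen γ hγ).pow_eq_one, one_pow]

/-- a geometric sum -/
lemma geom (ω : ℂ) (n : ℕ) (h1 : ω ^ (2 * n) = 1) (h2 : ω ^ 2 ≠ 1) :
    ∑ j ∈ range n, ω ^ (2 * j + 1) = 0 := by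
  have h3 : ∑ j ∈ range n, ω ^ (2 * j + 1) = ω * ∑ j ∈ range n, (ω ^ 2) ^ j := by
    rw [mul_sum]
    apply sum_congr rfl
    intro j _
    ring
  rw [h3, geom_sum_eq h2, ← pow_mul, h1, sub_self, zero_div, mul_zero]

lemma conj_cc (χ : DirichletCharacter ℂ p) (a b : ZMod p) :
    χ a * (starRingEnd ℂ) (χ b) = χ (a * b⁻¹) := by
  rw [map_mul, ← MulChar.inv_apply', ← MulChar.star_apply']
  rfl

lemma sum_sq (hp2 : p % 2 = 1) (γ : (ZMod p)ˣ) (hγ : ∀ x, x ∈ Subgroup.zpowers γ)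
    (σ : K →ₐ[ℚ] ℂ) :
    ∑ j ∈ range ((p - 1) / 2), ‖∑ a ∈ Icc 1 ((p - 1) / 2),
      cc K (g := 1) (mul_one (p - 1)).symm γ hγ σ (a : ZMod p) ^ (2 * j + 1)‖ ^ 2 =
      (((p - 1) / 2 : ℕ) : ℝ) * (((p - 1) / 2 : ℕ) : ℝ) := by
  obtain ⟨χ, hχ⟩ : ∃ χ, χ = cc K (g := 1) (mul_one (p - 1)).symm γ hγ σ := ⟨_, rfl⟩
  rw [← hχ]
  have hone : ∀ x : ZMod p, x ≠ 0 → χ x = 1 → x = 1 := by
    intro x hx h
    rw [hχ] at h
    exact cc_one K γ hγ σ x hx h
  have hp1 : 3 ≤ p := by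
    have := hp.out.two_le
    omega
  obtain ⟨n, hn⟩ : ∃ n, n = (p - 1) / 2 := ⟨_, rfl⟩
  have hpn : p - 1 = 2 * n := by omega
  have hc : ((∑ j ∈ range n, ‖∑ a ∈ Icc 1 n, χ (a : ZMod p) ^ (2 * j + 1)‖ ^ 2 : ℝ) : ℂ) =
      (n : ℂ) * n := by
    push_cast
    have h1 : ∀ j : ℕ, ((‖∑ a ∈ Icc 1 n, χ (a : ZMod p) ^ (2 * j + 1)‖ : ℝ) : ℂ) ^ 2 =
        ∑ a ∈ Icc 1 n, ∑ b ∈ Icc 1 n, χ ((a : ZMod p) * (b : ZMod p)⁻¹) ^ (2 * j + 1) := by
      intro j
      rw [← Complex.mul_conj', map_sum, sum_mul_sum]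
      apply sum_congr rfl
      intro a _
      apply sum_congr rfl
      intro b _
      rw [map_pow, ← mul_pow, conj_cc]
    simp only [h1]
    rw [sum_comm]
    have h2 : ∀ a ∈ Icc 1 n, ∑ j ∈ range n, ∑ b ∈ Icc 1 n,
        χ ((a : ZMod p) * (b : ZMod p)⁻¹) ^ (2 * j + 1) = n := by
      intro a ha
      rw [sum_comm]
      have hane : (a : ZMod p) ≠ 0 := cast_ne a (by rw [← hn]; exact ha)
      rw [sum_eq_single a]
      · rw [mul_inv_cancel₀ hane, map_one]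
        simp
      · intro b hb hba
        have hbne : (b : ZMod p) ≠ 0 := cast_ne b (by rw [← hn]; exact hb)
        have hu : (a : ZMod p) * (b : ZMod p)⁻¹ ≠ 0 := mul_ne_zero hane (inv_ne_zero hbne)
        apply geom
        · rw [← hpn, ← map_pow, ZMod.pow_card_sub_one_eq_one hu, map_one]
        · intro h3
          rw [← map_pow] at h3
          have h4 := hone _ (pow_ne_zero 2 hu) h3
          have h5 : ((a : ZMod p) - b) * ((a : ZMod p) + b) = 0 := by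
            have h6 : (a : ZMod p) ^ 2 = (b : ZMod p) ^ 2 := by
              rw [mul_pow, inv_pow] at h4
              field_simp at h4
              exact h4
            linear_combination h6
          rw [mem_Icc] at ha hb
          rcases mul_eq_zero.1 h5 with h6 | h6
          · rw [sub_eq_zero, ZMod.natCast_eq_natCast_iff'] at h6
            rw [Nat.mod_eq_of_lt (by omega), Nat.mod_eq_of_lt (by omega)] at h6
            exact hba h6.symm
          · have h7 : ((a + b : ℕ) : ZMod p) = 0 := by exact_mod_cast h6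
            rw [ZMod.natCast_eq_zero_iff] at h7
            have := Nat.le_of_dvd (by omega) h7
            omega
      · intro h
        exact absurd ha h
    rw [sum_congr rfl h2]
    simp
  rw [← hn]
  exact_mod_cast hc

/-- the inequality of the means -/
lemma amgm (n : ℕ) (hn : 0 < n) (z : ℕ → ℝ) (hz : ∀ j, 0 ≤ z j)
    (h : ∑ j ∈ range n, z j = (n : ℝ) * n) : ∏ j ∈ range n, z j ≤ (n : ℝ) ^ n := by
  have hn0 : (n : ℝ) ≠ 0 := by positivity
  have h1 := Real.geom_mean_le_arith_mean_weighted (range n) (fun _ => (n : ℝ)⁻¹) z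
    (fun _ _ => by positivity) (by simp [hn0]) (fun j _ => hz j)
  rw [Real.finsetProd_rpow _ _ (fun j _ => hz j), ← mul_sum, h, ← mul_assoc, inv_mul_cancel₀ hn0,
    one_mul] at h1
  have hP : 0 ≤ ∏ j ∈ range n, z j := prod_nonneg fun j _ => hz j
  rw [← Real.rpow_inv_natCast_pow hP hn.ne']
  exact pow_le_pow_left₀ (Real.rpow_nonneg hP _) h1 n

lemma sigma_S (γ : (ZMod p)ˣ) (hγ : ∀ x, x ∈ Subgroup.zpowers γ) (σ : K →ₐ[ℚ] ℂ) (j : ℕ) :
    σ (algebraMap (𝓞 K) K (S K γ hγ j)) = ∑ a ∈ Icc 1 ((p - 1) / 2),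
      cc K (g := 1) (mul_one (p - 1)).symm γ hγ σ (a : ZMod p) ^ (2 * j + 1) := by
  unfold S
  rw [map_sum, map_sum]
  apply sum_congr rfl
  intro a _
  rw [map_pow, map_pow]
  rfl

lemma S_ne (hp2 : p % 2 = 1) (γ : (ZMod p)ˣ) (hγ : ∀ x, x ∈ Subgroup.zpowers γ) (σ : K →ₐ[ℚ] ℂ)
    (j : ℕ) : σ (algebraMap (𝓞 K) K (S K γ hγ j)) ≠ 0 := by
  rw [sigma_S]
  have ho := cc_odd K hp2 (g := 1) rfl (mul_one (p - 1)).symm γ hγ σ
  have h1 : (cc K (g := 1) (mul_one (p - 1)).symm γ hγ σ ^ (2 * j + 1)).Odd := by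
    change (cc K (g := 1) (mul_one (p - 1)).symm γ hγ σ ^ (2 * j + 1)) (-1) = -1
    rw [MulChar.pow_apply' _ (by omega)]
    have h2 : cc K (g := 1) (mul_one (p - 1)).symm γ hγ σ (-1) = -1 := ho
    rw [h2]
    exact Odd.neg_one_pow ⟨j, rfl⟩
  have h3 := Pool.Agent.R361.QF.half_ne hp2 _ h1
  intro h4
  apply h3
  rw [← h4]
  apply sum_congr rfl
  intro a _
  rw [MulChar.pow_apply' _ (by omega)]

include K in
theorem bound (hp2 : p % 2 = 1) (γ : (ZMod p)ˣ) (hγ : ∀ x, x ∈ Subgroup.zpowers γ) :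
    p ^ (2 * (irr p).card) ≤ ((p - 1) / 2) ^ ((p - 1) / 2) := by
  classical
  have hp1 : 3 ≤ p := by
    have := hp.out.two_le
    omega
  obtain ⟨n, hn⟩ : ∃ n, n = (p - 1) / 2 := ⟨_, rfl⟩
  have hn1 : 0 < n := by omega
  have h1 := T_norm K hp2 γ hγ
  have h2 : (((Algebra.norm ℤ (T K γ hγ)).natAbs : ℕ) : ℝ) =
      ∏ σ : K →ₐ[ℚ] ℂ, ∏ j ∈ range n, ‖σ (algebraMap (𝓞 K) K (S K γ hγ j))‖ := by
    have h1 := Algebra.norm_eq_prod_embeddings ℚ ℂ (algebraMap (𝓞 K) K (T K γ hγ))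
    have h2 := Algebra.coe_norm_int (T K γ hγ)
    have h3 : ∀ σ : K →ₐ[ℚ] ℂ, ∏ j ∈ range n, ‖σ (algebraMap (𝓞 K) K (S K γ hγ j))‖ =
        ‖σ (algebraMap (𝓞 K) K (T K γ hγ))‖ := by
      intro σ
      unfold T
      rw [map_prod, map_prod, norm_prod, hn]
    simp only [h3]
    rw [← norm_prod, ← h1, ← h2, Nat.cast_natAbs]
    simp
  have h3 : (Algebra.norm ℤ (T K γ hγ)).natAbs ≠ 0 := by
    intro h0
    rw [h0, Nat.cast_zero, eq_comm, prod_eq_zero_iff] at h2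
    obtain ⟨σ, _, hσ⟩ := h2
    rw [prod_eq_zero_iff] at hσ
    obtain ⟨j, _, hj⟩ := hσ
    exact S_ne K hp2 γ hγ σ j (norm_eq_zero.1 hj)
  have h4 := Nat.le_of_dvd (Nat.pos_of_ne_zero h3) h1
  have h5 : ((p : ℝ) ^ ((irr p).card * (p - 1).totient)) ^ 2 ≤ ((n : ℝ) ^ n) ^ (p - 1).totient := by
    have h6 : (p : ℝ) ^ ((irr p).card * (p - 1).totient) ≤
        ((Algebra.norm ℤ (T K γ hγ)).natAbs : ℝ) := by exact_mod_cast h4
    refine (pow_le_pow_left₀ (by positivity) h6 2).trans ?_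
    rw [h2, ← prod_pow]
    have h7 : ∀ σ : K →ₐ[ℚ] ℂ,
        (∏ j ∈ range n, ‖σ (algebraMap (𝓞 K) K (S K γ hγ j))‖) ^ 2 ≤ (n : ℝ) ^ n := by
      intro σ
      rw [← prod_pow]
      apply amgm n hn1 _ (fun j => by positivity)
      have h8 := sum_sq K hp2 γ hγ σ
      rw [← hn] at h8
      rw [← h8]
      apply sum_congr rfl
      intro j _
      rw [sigma_S, hn]
    refine (prod_le_prod (fun σ _ => by positivity) (fun σ _ => h7 σ)).trans (le_of_eq ?_)
    rw [prod_const, card_univ, card_emb (d := p - 1) K]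
  have h6 : (p ^ (2 * (irr p).card)) ^ (p - 1).totient ≤ (n ^ n) ^ (p - 1).totient := by
    have h7 : ((p : ℝ) ^ ((irr p).card * (p - 1).totient)) ^ 2 =
        ((p : ℝ) ^ (2 * (irr p).card)) ^ (p - 1).totient := by
      rw [← pow_mul, ← pow_mul]
      congr 1
      ring
    rw [h7] at h5
    exact_mod_cast h5
  rw [← hn]
  exact (Nat.pow_le_pow_iff_left (Nat.totient_pos.2 (by omega)).ne').1 h6

end

/-- Skula's bound -/
theorem skula (p : ℕ) (hp : p.Prime) (hp5 : 5 ≤ p) :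
    p ^ (2 * ((Icc 1 ((p - 3) / 2)).filter (fun i => (p : ℤ) ∣ (bernoulli (2 * i)).num)).card) ≤
      ((p - 1) / 2) ^ ((p - 1) / 2) := by
  have : Fact p.Prime := ⟨hp⟩
  have hp2 : p % 2 = 1 := by
    rcases hp.eq_two_or_odd with h | h
    · omega
    · exact h
  have : NeZero (p - 1) := ⟨by omega⟩
  have h : IsCyclotomicExtension {p - 1} ℚ (CyclotomicField (p - 1) ℚ) := by
    have h1 : @IsCyclotomicExtension {p - 1} ℚ (CyclotomicField (p - 1) ℚ) _ _
      (CyclotomicField.algebra (p - 1) ℚ) := inferInstance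
    convert h1
    exact Subsingleton.elim _ _
  obtain ⟨γ, hγ⟩ := IsCyclic.exists_generator (α := (ZMod p)ˣ)
  refine le_trans ?_ (bound (CyclotomicField (p - 1) ℚ) hp2 γ hγ)
  apply Nat.pow_le_pow_right (by omega)
  apply Nat.mul_le_mul_left
  apply card_le_card_of_injOn (fun i => i - 1)
  · intro i hi
    rw [coe_filter, Set.mem_ofPred_eq, mem_Icc] at hi
    obtain ⟨⟨h1, h2⟩, h3⟩ := hi
    change i - 1 ∈ (irr p : Set ℕ)
    rw [irr, mem_coe, mem_filter, mem_range]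
    refine ⟨by omega, by omega, ?_⟩
    have h4 : 2 * (i - 1) + 2 = 2 * i := by omega
    rw [h4]
    exact h3
  · intro i hi j hj hij
    rw [coe_filter, Set.mem_ofPred_eq, mem_Icc] at hi hj
    simp only at hij
    omega

end Pool.Agent.H17Reg.Sk
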