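import Mathlib
import Pool.Agent.H17Reg.Sums

/-!
# For almost all primes every index is a sum of three regular indices

For almost all primes `p`: every `k`, `3 ≤ k ≤ (p - 3) / 2`, is a sum of three regular indices of `p`,
and every `k` with `2 ≤ k ≤ p / (ψ(p) log p)` is a sum of two regular indices. Here `ψ` is any function
that tends to infinity.

Proof. Every `k ≥ 2` is `m + t` with `m` a regular index and `1 ≤ t ≤ √k`, by the theorem on runs of
irregular indices (`IrregularRuns`). For almost all `p` the indices up to `√(p / (ψ(p) log p))` are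
regular and there are at most `(log p)^3` irregular ones up to `√p` (`SparseIrregular`), so `t` is
regular in the second case, and the sum of two regular indices in the first one, if `t ≥ 2`. If `t = 1`
then `m` is the sum of two regular indices by `SumsOfRegularIndices`.
-/

set_option autoImplicit false

namespace Pool.Agent.H17Reg.TwoOrThree

open Filter Topology

/-- `i` is a regular index of `p`: `1 ≤ i ≤ (p - 3) / 2`, and `p` does not divide the numerator of the
Bernoulli number `B_{2i}` -/
def RegularIndex (p i : ℕ) : Prop :=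
  1 ≤ i ∧ 2 * i + 3 ≤ p ∧ ¬ (p : ℤ) ∣ (bernoulli (2 * i)).num

/-- Let `ψ` tend to infinity. For almost all primes `p` (in the sense of relative density in the
primes) every `k` with `2 ≤ k ≤ p / (ψ(p) log p)` is a sum of two regular indices of `p`, and every `k`
with `3 ≤ k ≤ (p - 3) / 2` is a sum of three regular indices of `p`. -/
theorem result (ψ : ℕ → ℝ) (hψ : Tendsto ψ atTop atTop) :
    Tendsto (fun X : ℕ =>
      (({p : ℕ | p ≤ X ∧ p.Prime ∧
          (∀ k : ℕ, 2 ≤ k → (k : ℝ) ≤ p / (ψ p * Real.log p) →
            ∃ i j, RegularIndex p i ∧ RegularIndex p j ∧ i + j = k) ∧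
          (∀ k : ℕ, 3 ≤ k → 2 * k + 3 ≤ p →
            ∃ i j l, RegularIndex p i ∧ RegularIndex p j ∧ RegularIndex p l ∧
              i + j + l = k)}.ncard : ℕ) : ℝ)
        / (({p : ℕ | p ≤ X ∧ p.Prime}.ncard : ℕ) : ℝ)) atTop (𝓝 1) :=
  Pool.Agent.H17Reg.almost_all ψ hψ

end Pool.Agent.H17Reg.TwoOrThree
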