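import Mathlib
import Pool.Agent.H17Reg.Skula

set_option autoImplicit false

/-!
# Irregular indices in unions of Galois orbits of odd characters
-/

namespace Pool.Agent.H17Reg.Un

open Finset NumberField Pool.Agent.H17Reg Pool.Agent.H17Reg.Sk

section

variable {p : ℕ}

lemma per_inj (hp2 : p % 2 = 1) (k : ℕ) (hk : k.Coprime (p - 1)) (hp1 : 3 ≤ p) :
    Set.InjOn (per p k) (range ((p - 1) / 2) : Finset ℕ) := by
  apply Finset.card_image_iff.1
  rw [per_image hp2 k hk hp1]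

/-- stability under the group of units -/
def Stable (p : ℕ) (A : Finset ℕ) : Prop :=
  A ⊆ range ((p - 1) / 2) ∧ ∀ k : ℕ, k.Coprime (p - 1) → ∀ j ∈ A, per p k j ∈ A

lemma image_eq (hp2 : p % 2 = 1) (k : ℕ) (hk : k.Coprime (p - 1)) (hp1 : 3 ≤ p) (A : Finset ℕ)
    (hA : Stable p A) : A.image (per p k) = A := by
  apply Finset.eq_of_subset_of_card_le
  · intro x hx
    rw [mem_image] at hx
    obtain ⟨j, hj, rfl⟩ := hx
    exact hA.2 k hk j hj
  · rw [card_image_of_injOn ((per_inj hp2 k hk hp1).mono (by rw [coe_subset]; exact hA.1))]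

lemma card_pre' (hp2 : p % 2 = 1) (k : ℕ) (hk : k.Coprime (p - 1)) (hp1 : 3 ≤ p) (A : Finset ℕ)
    (hA : Stable p A) :
    (A ∩ irr p).card ≤ (A.filter (fun j => per p k j ∈ irr p)).card := by
  have h1 : A ∩ irr p ⊆ (A.filter (fun j => per p k j ∈ irr p)).image (per p k) := by
    intro x hx
    rw [mem_inter] at hx
    have h2 := hx.1
    rw [← image_eq hp2 k hk hp1 A hA, mem_image] at h2
    obtain ⟨j, hj, rfl⟩ := h2
    exact mem_image.2 ⟨j, mem_filter.2 ⟨hj, hx.2⟩, rfl⟩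
  exact (card_le_card h1).trans card_image_le

variable [hp : Fact p.Prime] [NeZero (p - 1)] (K : Type) [Field K] [NumberField K]
  [IsCyclotomicExtension {p - 1} ℚ K]

/-- the product -/
noncomputable def TA (γ : (ZMod p)ˣ) (hγ : ∀ x, x ∈ Subgroup.zpowers γ) (A : Finset ℕ) : 𝓞 K :=
  ∏ j ∈ A, S K γ hγ j

lemma TA_mem (hp2 : p % 2 = 1) (γ : (ZMod p)ˣ) (hγ : ∀ x, x ∈ Subgroup.zpowers γ) (A : Finset ℕ)
    (hA : Stable p A) (k : ℕ)
    (hk : k.Coprime (p - 1)) (hw : IsPrimitiveRoot ((γ : ZMod p) ^ (1 * k)) (p - 1)) :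
    ker K _ hw ^ (A ∩ irr p).card ∣ Ideal.span {TA K γ hγ A} := by
  classical
  have hp1 : 3 ≤ p := by
    have := hp.out.two_le
    omega
  refine (pow_dvd_pow _ (card_pre' hp2 k hk hp1 A hA)).trans ?_
  unfold TA
  rw [← Ideal.prod_span_singleton, ← prod_const]
  refine (Finset.prod_dvd_prod_of_dvd _ (fun j => Ideal.span {S K γ hγ j}) ?_).trans
    (Finset.prod_dvd_prod_of_subset _ _ _ (filter_subset _ _))
  intro j hj
  rw [mem_filter] at hj
  obtain ⟨-, hj⟩ := hj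
  rw [irr, mem_filter] at hj
  obtain ⟨-, h1, h2⟩ := hj
  have h3 := per_spec hp2 k j hk hp1
  rw [Ideal.dvd_span_singleton, ker, RingHom.mem_ker]
  change hom (p - 1) K _ hw (S K γ hγ j) = 0
  apply hom_S K hp2 γ hγ k hw j
  · omega
  · omega
  · rw [← h3]
    exact h2

theorem TA_norm (hp2 : p % 2 = 1) (γ : (ZMod p)ˣ) (hγ : ∀ x, x ∈ Subgroup.zpowers γ)
    (A : Finset ℕ) (hA : Stable p A) :
    p ^ ((A ∩ irr p).card * (p - 1).totient) ∣ (Algebra.norm ℤ (TA K γ hγ A)).natAbs := by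
  classical
  have hp1 := hp.out.two_le
  have hc : (((range (p - 1)).filter (fun k => k.Coprime (p - 1))).image
      (fun k : ℕ => (γ : ZMod p) ^ (1 * k))).card = (p - 1).totient := by
    rw [card_image_of_injOn ((pow_inj (g := 1) (mul_one (p - 1)).symm γ hγ).mono
      (by rw [coe_subset]; exact filter_subset _ _))]
    rw [Nat.totient_eq_card_coprime]
    congr 1
    apply filter_congr
    intro k _
    exact Nat.coprime_comm
  rw [← hc]
  have hW : ∀ w ∈ ((range (p - 1)).filter (fun k => k.Coprime (p - 1))).image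
      (fun k : ℕ => (γ : ZMod p) ^ (1 * k)), IsPrimitiveRoot w (p - 1) := by
    intro w hw
    rw [mem_image] at hw
    obtain ⟨k, hk, rfl⟩ := hw
    exact prim_pow (mul_one (p - 1)).symm γ hγ k (mem_filter.1 hk).2
  refine norm_dvd' K _ _ _ hW ?_
  intro w hw
  obtain ⟨k, hk, hk'⟩ := mem_image.1 hw
  subst hk'
  exact TA_mem K hp2 γ hγ A hA k (mem_filter.1 hk).2 _

omit hp [NeZero (p - 1)] in
/-- the inequality of the means -/
lemma amgm' (A : Finset ℕ) (hA : A.Nonempty) (B : ℝ) (z : ℕ → ℝ) (hz : ∀ j, 0 ≤ z j)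
    (h : ∑ j ∈ A, z j ≤ B) : ∏ j ∈ A, z j ≤ (B / A.card) ^ A.card := by
  have hm : 0 < A.card := card_pos.2 hA
  have hm0 : (A.card : ℝ) ≠ 0 := by positivity
  have h1 := Real.geom_mean_le_arith_mean_weighted A (fun _ => (A.card : ℝ)⁻¹) z
    (fun _ _ => by positivity) (by simp [hm0]) (fun j _ => hz j)
  rw [Real.finsetProd_rpow _ _ (fun j _ => hz j), ← mul_sum] at h1
  have h2 : (A.card : ℝ)⁻¹ * ∑ j ∈ A, z j ≤ B / A.card := by
    rw [div_eq_inv_mul]
    exact mul_le_mul_of_nonneg_left h (by positivity)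
  have hP : 0 ≤ ∏ j ∈ A, z j := prod_nonneg fun j _ => hz j
  rw [← Real.rpow_inv_natCast_pow hP hm.ne']
  exact pow_le_pow_left₀ (Real.rpow_nonneg hP _) (h1.trans h2) _

include K in
theorem boundA (hp2 : p % 2 = 1) (γ : (ZMod p)ˣ) (hγ : ∀ x, x ∈ Subgroup.zpowers γ)
    (A : Finset ℕ) (hA : Stable p A) (hne : A.Nonempty) :
    p ^ (2 * (A ∩ irr p).card) * A.card ^ A.card ≤ ((p - 1) / 2) ^ (2 * A.card) := by
  classical
  have hp1 : 3 ≤ p := by
    have := hp.out.two_le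
    omega
  obtain ⟨n, hn⟩ : ∃ n, n = (p - 1) / 2 := ⟨_, rfl⟩
  have hn1 : 0 < n := by omega
  have hm : 0 < A.card := card_pos.2 hne
  have h1 := TA_norm K hp2 γ hγ A hA
  have h2 : (((Algebra.norm ℤ (TA K γ hγ A)).natAbs : ℕ) : ℝ) =
      ∏ σ : K →ₐ[ℚ] ℂ, ∏ j ∈ A, ‖σ (algebraMap (𝓞 K) K (S K γ hγ j))‖ := by
    have h1 := Algebra.norm_eq_prod_embeddings ℚ ℂ (algebraMap (𝓞 K) K (TA K γ hγ A))
    have h2 := Algebra.coe_norm_int (TA K γ hγ A)
    have h3 : ∀ σ : K →ₐ[ℚ] ℂ, ∏ j ∈ A, ‖σ (algebraMap (𝓞 K) K (S K γ hγ j))‖ =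
        ‖σ (algebraMap (𝓞 K) K (TA K γ hγ A))‖ := by
      intro σ
      unfold TA
      rw [map_prod, map_prod, norm_prod]
    simp only [h3]
    rw [← norm_prod, ← h1, ← h2, Nat.cast_natAbs]
    simp
  have h3 : (Algebra.norm ℤ (TA K γ hγ A)).natAbs ≠ 0 := by
    intro h0
    rw [h0, Nat.cast_zero, eq_comm, prod_eq_zero_iff] at h2
    obtain ⟨σ, _, hσ⟩ := h2
    rw [prod_eq_zero_iff] at hσ
    obtain ⟨j, _, hj⟩ := hσ
    exact S_ne K hp2 γ hγ σ j (norm_eq_zero.1 hj)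
  have h4 := Nat.le_of_dvd (Nat.pos_of_ne_zero h3) h1
  obtain ⟨B, hB⟩ : ∃ B : ℝ, B = ((n : ℝ) * n / A.card) ^ A.card := ⟨_, rfl⟩
  have h5 : ((p : ℝ) ^ ((A ∩ irr p).card * (p - 1).totient)) ^ 2 ≤ B ^ (p - 1).totient := by
    have h6 : (p : ℝ) ^ ((A ∩ irr p).card * (p - 1).totient) ≤
        ((Algebra.norm ℤ (TA K γ hγ A)).natAbs : ℝ) := by exact_mod_cast h4
    refine (pow_le_pow_left₀ (by positivity) h6 2).trans ?_
    rw [h2, ← prod_pow]
    have h7 : ∀ σ : K →ₐ[ℚ] ℂ,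
        (∏ j ∈ A, ‖σ (algebraMap (𝓞 K) K (S K γ hγ j))‖) ^ 2 ≤ B := by
      intro σ
      rw [← prod_pow, hB]
      apply amgm' A hne _ _ (fun j => by positivity)
      have h8 := sum_sq K hp2 γ hγ σ
      rw [← hn] at h8
      rw [← h8]
      have h9 : ∀ j : ℕ, ‖σ (algebraMap (𝓞 K) K (S K γ hγ j))‖ ^ 2 = ‖∑ a ∈ Icc 1 n,
          cc K (g := 1) (mul_one (p - 1)).symm γ hγ σ (a : ZMod p) ^ (2 * j + 1)‖ ^ 2 := by
        intro j
        rw [sigma_S, hn]
      rw [sum_congr rfl fun j _ => h9 j]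
      apply sum_le_sum_of_subset_of_nonneg
      · rw [hn]
        exact hA.1
      · intro j _ _
        positivity
    refine (prod_le_prod (fun σ _ => by positivity) (fun σ _ => h7 σ)).trans (le_of_eq ?_)
    rw [prod_const, card_univ, card_emb (d := p - 1) K]
  have hB0 : 0 ≤ B := by
    rw [hB]
    positivity
  have h6 : (p : ℝ) ^ (2 * (A ∩ irr p).card) ≤ B := by
    have h7 : ((p : ℝ) ^ ((A ∩ irr p).card * (p - 1).totient)) ^ 2 =
        ((p : ℝ) ^ (2 * (A ∩ irr p).card)) ^ (p - 1).totient := by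
      rw [← pow_mul, ← pow_mul]
      congr 1
      ring
    rw [h7] at h5
    exact (pow_le_pow_iff_left₀ (by positivity) hB0
      (Nat.totient_pos.2 (by omega : 0 < p - 1)).ne').1 h5
  have h7 : (p : ℝ) ^ (2 * (A ∩ irr p).card) * (A.card : ℝ) ^ A.card ≤ (n : ℝ) ^ (2 * A.card) := by
    refine (mul_le_mul_of_nonneg_right h6 (by positivity)).trans (le_of_eq ?_)
    rw [hB, div_pow, div_mul_cancel₀ _ (by positivity), ← sq, ← pow_mul]
  rw [← hn]
  exact_mod_cast h7

end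

/-- Galois stable sets of indices -/
theorem stable_bound (p : ℕ) (hp : p.Prime) (hp3 : 3 ≤ p) (A : Finset ℕ) (hA : Stable p A)
    (hne : A.Nonempty) :
    p ^ (2 * (A ∩ irr p).card) * A.card ^ A.card ≤ ((p - 1) / 2) ^ (2 * A.card) := by
  have : Fact p.Prime := ⟨hp⟩
  have hp2 : p % 2 = 1 := by
    rcases hp.eq_two_or_odd with h | h
    · omega
    · exact h
  have : NeZero (p - 1) := ⟨by omega⟩
  have h : IsCyclotomicExtension {p - 1} ℚ (CyclotomicField (p - 1) ℚ) := by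
    have h1 : @IsCyclotomicExtension {p - 1} ℚ (CyclotomicField (p - 1) ℚ) _ _
      (CyclotomicField.algebra (p - 1) ℚ) := inferInstance
    convert h1
    exact Subsingleton.elim _ _
  obtain ⟨γ, hγ⟩ := IsCyclic.exists_generator (α := (ZMod p)ˣ)
  exact boundA (CyclotomicField (p - 1) ℚ) hp2 γ hγ A hA hne

open Classical in
/-- the indices of a union of orbits -/
noncomputable def AG (p : ℕ) (G : Set ℕ) : Finset ℕ :=
  (range ((p - 1) / 2)).filter (fun j => Nat.gcd (2 * j + 1) (p - 1) ∈ G)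

lemma AG_stable (p : ℕ) (hp2 : p % 2 = 1) (hp3 : 3 ≤ p) (G : Set ℕ) : Stable p (AG p G) := by
  classical
  refine ⟨filter_subset _ _, fun k hk j hj => ?_⟩
  rw [AG, mem_filter] at hj ⊢
  refine ⟨mem_range.2 (per_lt hp2 k j hk hp3), ?_⟩
  rw [per_spec hp2 k j hk hp3]
  have h1 : Nat.gcd ((k * (2 * j + 1)) % (p - 1)) (p - 1) = Nat.gcd (2 * j + 1) (p - 1) := by
    rw [← Nat.gcd_rec, Nat.gcd_comm]
    exact Nat.Coprime.gcd_mul_left_cancel _ hk
  rw [h1]
  exact hj.2

open Classical in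
/-- the final form -/
theorem final (p : ℕ) (hp : p.Prime) (hp2 : p ≠ 2) (G : Set ℕ) (m r : ℕ)
    (hm : m = ((Icc 1 ((p - 1) / 2)).filter (fun i => Nat.gcd (2 * i - 1) (p - 1) ∈ G)).card)
    (hr : r = ((Icc 1 ((p - 3) / 2)).filter (fun i => Nat.gcd (2 * i - 1) (p - 1) ∈ G ∧
      (p : ℤ) ∣ (bernoulli (2 * i)).num)).card) :
    p ^ (2 * r) * m ^ m ≤ ((p - 1) / 2) ^ (2 * m) ∧ (0 < m → r < m) ∧
      (p - 1 ≤ 4 * m → 2 * r < m) := by
  have hp3 : 3 ≤ p := by
    have := hp.two_le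
    omega
  have hodd : p % 2 = 1 := by
    rcases hp.eq_two_or_odd with h | h
    · omega
    · exact h
  have hm' : m = (AG p G).card := by
    rw [hm]
    refine card_bij' (fun i _ => i - 1) (fun j _ => j + 1) ?_ ?_ ?_ ?_
    · intro i hi
      rw [mem_filter, mem_Icc] at hi
      rw [AG, mem_filter, mem_range]
      have h1 : 2 * (i - 1) + 1 = 2 * i - 1 := by omega
      rw [h1]
      exact ⟨by omega, hi.2⟩
    · intro j hj
      rw [AG, mem_filter, mem_range] at hj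
      rw [mem_filter, mem_Icc]
      have h1 : 2 * (j + 1) - 1 = 2 * j + 1 := by omega
      rw [h1]
      exact ⟨by omega, hj.2⟩
    · intro i hi
      rw [mem_filter, mem_Icc] at hi
      change i - 1 + 1 = i
      omega
    · intro j _
      change j + 1 - 1 = j
      omega
  have hr' : r ≤ (AG p G ∩ irr p).card := by
    rw [hr]
    apply card_le_card_of_injOn (fun i => i - 1)
    · intro i hi
      rw [coe_filter, Set.mem_ofPred_eq, mem_Icc] at hi
      obtain ⟨⟨h1, h2⟩, h3, h4⟩ := hi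
      change i - 1 ∈ ((AG p G ∩ irr p : Finset ℕ) : Set ℕ)
      rw [mem_coe, mem_inter, AG, irr, mem_filter, mem_filter, mem_range]
      have h5 : 2 * (i - 1) + 1 = 2 * i - 1 := by omega
      have h6 : 2 * (i - 1) + 2 = 2 * i := by omega
      rw [h5, h6]
      exact ⟨⟨by omega, h3⟩, by omega, by omega, h4⟩
    · intro i hi j hj hij
      rw [coe_filter, Set.mem_ofPred_eq, mem_Icc] at hi hj
      simp only at hij
      omega
  have hmn : m ≤ (p - 1) / 2 := by
    rw [hm']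
    refine (card_filter_le _ _).trans ?_
    rw [card_range]
  rcases Nat.eq_zero_or_pos m with h0 | h0
  · have hr0 : r = 0 := by
      have h1 : (AG p G ∩ irr p).card ≤ (AG p G).card := card_le_card inter_subset_left
      omega
    subst h0
    subst hr0
    refine ⟨by simp, fun h => absurd h (lt_irrefl 0), fun h => ?_⟩
    omega
  · have h1 := stable_bound p hp hp3 (AG p G) (AG_stable p hodd hp3 G)
      (card_pos.1 (by rw [← hm']; exact h0))
    rw [← hm'] at h1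
    have h2 : p ^ (2 * r) * m ^ m ≤ ((p - 1) / 2) ^ (2 * m) := by
      refine le_trans ?_ h1
      apply Nat.mul_le_mul_right
      apply Nat.pow_le_pow_right (by omega)
      omega
    refine ⟨h2, fun _ => ?_, fun h3 => ?_⟩
    · have h3 : p ^ (2 * r) < p ^ (2 * m) := by
        calc p ^ (2 * r) = p ^ (2 * r) * 1 := (mul_one _).symm
          _ ≤ p ^ (2 * r) * m ^ m := Nat.mul_le_mul_left _ (Nat.one_le_iff_ne_zero.2
              (pow_ne_zero _ (by omega)))
          _ ≤ ((p - 1) / 2) ^ (2 * m) := h2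
          _ < p ^ (2 * m) := Nat.pow_lt_pow_left (by omega) (by omega)
      have := (Nat.pow_lt_pow_iff_right (by omega : 1 < p)).1 h3
      omega
    · have h4 : ((p - 1) / 2) ^ (2 * m) ≤ ((p - 1) * m) ^ m := by
        rw [pow_mul]
        apply Nat.pow_le_pow_left
        obtain ⟨n, hn⟩ : ∃ n, p - 1 = 2 * n := ⟨(p - 1) / 2, by omega⟩
        rw [hn] at h3 ⊢
        rw [Nat.mul_div_cancel_left _ (by norm_num : 0 < 2)]
        nlinarith
      have h5 : p ^ (2 * r) * m ^ m < p ^ m * m ^ m := by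
        calc p ^ (2 * r) * m ^ m ≤ ((p - 1) / 2) ^ (2 * m) := h2
          _ ≤ ((p - 1) * m) ^ m := h4
          _ = (p - 1) ^ m * m ^ m := mul_pow _ _ _
          _ < p ^ m * m ^ m := by
              apply Nat.mul_lt_mul_of_pos_right _ (pow_pos h0 _)
              exact Nat.pow_lt_pow_left (by omega) (by omega)
      have h6 := lt_of_mul_lt_mul_right h5 (Nat.zero_le _)
      exact (Nat.pow_lt_pow_iff_right (by omega : 1 < p)).1 h6

end Pool.Agent.H17Reg.Un
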