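import Mathlib
import Pool.Agent.H17Reg.Union
import Pool.Agent.H17Reg.GalOrb

set_option autoImplicit false

/-!
# Summation over the orbits
-/

namespace Pool.Agent.H17Reg.Un2

open Finset

/-- the number of the indices of one orbit -/
lemma card_orbit (p : ℕ) (hp3 : 3 ≤ p) (hodd : p % 2 = 1) (g : ℕ) (hg : Odd g) (hgp : g ∣ p - 1) :
    ((Icc 1 ((p - 1) / 2)).filter (fun i => Nat.gcd (2 * i - 1) (p - 1) = g)).card =
      Nat.totient ((p - 1) / g) := by
  rw [Nat.totient_div_of_dvd hgp]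
  refine card_bij' (fun i _ => 2 * i - 1) (fun k _ => (k + 1) / 2) ?_ ?_ ?_ ?_
  · intro i hi
    rw [mem_filter, mem_Icc] at hi
    rw [mem_filter, mem_range, Nat.gcd_comm]
    exact ⟨by omega, hi.2⟩
  · intro k hk
    rw [mem_filter, mem_range] at hk
    have h1 : k % 2 = 1 := by
      by_contra h
      have h2 : 2 ∣ k := by omega
      have h3 : 2 ∣ Nat.gcd (p - 1) k := Nat.dvd_gcd (by omega) h2
      rw [hk.2] at h3
      rw [Nat.odd_iff] at hg
      omega
    have h2 : 2 * ((k + 1) / 2) - 1 = k := by omega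
    rw [mem_filter, mem_Icc, h2, Nat.gcd_comm]
    exact ⟨by omega, hk.2⟩
  · intro i hi
    rw [mem_filter, mem_Icc] at hi
    change (2 * i - 1 + 1) / 2 = i
    omega
  · intro k hk
    rw [mem_filter, mem_range] at hk
    have h1 : k % 2 = 1 := by
      by_contra h
      have h2 : 2 ∣ k := by omega
      have h3 : 2 ∣ Nat.gcd (p - 1) k := Nat.dvd_gcd (by omega) h2
      rw [hk.2] at h3
      rw [Nat.odd_iff] at hg
      omega
    change 2 * ((k + 1) / 2) - 1 = k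
    omega

/-- the number of the irregular indices of one orbit -/
lemma card_irr (p : ℕ) (hp3 : 3 ≤ p) (hodd : p % 2 = 1) (g : ℕ) (hg : Odd g) (hgp : g ∣ p - 1) :
    ((Icc 1 ((p - 3) / 2)).filter (fun i => Nat.gcd (2 * i - 1) (p - 1) = g ∧
      (p : ℤ) ∣ (bernoulli (2 * i)).num)).card ≤
    ((Icc 2 (p - 3)).filter (fun k : ℕ => Nat.gcd (k - 1) (p - 1) = g ∧
      (p : ℤ) ∣ (bernoulli k).num)).card := by
  apply card_le_card_of_injOn (fun i => 2 * i)
  · intro i hi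
    rw [mem_coe, mem_filter, mem_Icc] at hi
    change 2 * i ∈ (_ : Set ℕ)
    rw [mem_coe, mem_filter, mem_Icc]
    exact ⟨by omega, hi.2⟩
  · intro i _ j _ hij
    simp only at hij
    omega

open Classical in
theorem sum_orbits (p : ℕ) (hp : p.Prime) (hp2 : p ≠ 2) (G : Set ℕ) (m r : ℕ)
    (hm : m = ((Icc 1 ((p - 1) / 2)).filter (fun i => Nat.gcd (2 * i - 1) (p - 1) ∈ G)).card)
    (hr : r = ((Icc 1 ((p - 3) / 2)).filter (fun i => Nat.gcd (2 * i - 1) (p - 1) ∈ G ∧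
      (p : ℤ) ∣ (bernoulli (2 * i)).num)).card) :
    (r : ℝ) ≤ (1 / 2 + Real.log (Real.log p) / Real.log p) * m ∧
    ((∀ g ∈ G, g ∣ p - 1 → Real.log p ^ (2 * Nat.totient ((p - 1) / g)) < p) → 2 * r ≤ m) := by
  have hp3 : 3 ≤ p := by
    have := hp.two_le
    omega
  have hodd : p % 2 = 1 := by
    rcases hp.eq_two_or_odd with h | h
    · omega
    · exact h
  obtain ⟨D, hD⟩ : ∃ D, D = ((Icc 1 ((p - 1) / 2)).filter
      (fun i => Nat.gcd (2 * i - 1) (p - 1) ∈ G)).image (fun i => Nat.gcd (2 * i - 1) (p - 1)) :=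
    ⟨_, rfl⟩
  have hDg : ∀ g ∈ D, g ∈ G ∧ Odd g ∧ g ∣ p - 1 := by
    intro g hg
    rw [hD, mem_image] at hg
    obtain ⟨i, hi, rfl⟩ := hg
    rw [mem_filter, mem_Icc] at hi
    refine ⟨hi.2, ?_, Nat.gcd_dvd_right _ _⟩
    have h1 : Odd (2 * i - 1) := by
      rw [Nat.odd_iff]
      omega
    exact h1.of_dvd_nat (Nat.gcd_dvd_left _ _)
  have h1 : m = ∑ g ∈ D, Nat.totient ((p - 1) / g) := by
    rw [hm, card_eq_sum_card_fiberwise (f := fun i => Nat.gcd (2 * i - 1) (p - 1)) (t := D)]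
    · apply sum_congr rfl
      intro g hg
      obtain ⟨h2, h3, h4⟩ := hDg g hg
      rw [← card_orbit p hp3 hodd g h3 h4, filter_filter]
      congr 1
      apply filter_congr
      intro i _
      constructor
      · exact fun h => h.2
      · intro h
        exact ⟨by rw [h]; exact h2, h⟩
    · intro i hi
      rw [hD]
      exact mem_coe.2 (mem_image_of_mem _ (mem_coe.1 hi))
  obtain ⟨ρ, hρ⟩ : ∃ ρ : ℕ → ℕ, ∀ g, ρ g = ((Icc 2 (p - 3)).filter (fun k : ℕ =>
      Nat.gcd (k - 1) (p - 1) = g ∧ (p : ℤ) ∣ (bernoulli k).num)).card := ⟨_, fun _ => rfl⟩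
  have h2 : r ≤ ∑ g ∈ D, ρ g := by
    rw [hr, card_eq_sum_card_fiberwise (f := fun i => Nat.gcd (2 * i - 1) (p - 1)) (t := D)]
    · apply sum_le_sum
      intro g hg
      obtain ⟨h2, h3, h4⟩ := hDg g hg
      rw [hρ]
      refine le_trans (card_le_card ?_) (card_irr p hp3 hodd g h3 h4)
      intro i hi
      rw [mem_filter, mem_filter] at hi
      exact mem_filter.2 ⟨hi.1.1, hi.2, hi.1.2.2⟩
    · intro i hi
      rw [mem_coe, mem_filter, mem_Icc] at hi
      rw [hD]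
      refine mem_coe.2 (mem_image_of_mem _ (mem_filter.2 ⟨mem_Icc.2 ⟨by omega, by omega⟩, hi.2.1⟩))
  have h3 : ∀ g ∈ D, (ρ g : ℝ) ≤ (1 / 2 + Real.log (Real.log p) / Real.log p) *
      Nat.totient ((p - 1) / g) ∧
      (Real.log p ^ (2 * Nat.totient ((p - 1) / g)) < p → 2 * ρ g ≤ Nat.totient ((p - 1) / g)) := by
    intro g hg
    obtain ⟨-, h3, h4⟩ := hDg g hg
    exact (Pool.Agent.H17Reg.GalOrb.single p hp hp2 g h3 h4 (ρ g) (hρ g)).2
  constructor
  · calc (r : ℝ) ≤ ((∑ g ∈ D, ρ g : ℕ) : ℝ) := by exact_mod_cast h2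
      _ = ∑ g ∈ D, (ρ g : ℝ) := by push_cast; rfl
      _ ≤ ∑ g ∈ D, (1 / 2 + Real.log (Real.log p) / Real.log p) * Nat.totient ((p - 1) / g) :=
          sum_le_sum fun g hg => (h3 g hg).1
      _ = (1 / 2 + Real.log (Real.log p) / Real.log p) * m := by
          rw [← mul_sum, h1]
          push_cast
          rfl
  · intro hG
    calc 2 * r ≤ 2 * ∑ g ∈ D, ρ g := by omega
      _ = ∑ g ∈ D, 2 * ρ g := mul_sum _ _ _
      _ ≤ ∑ g ∈ D, Nat.totient ((p - 1) / g) :=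
          sum_le_sum fun g hg => (h3 g hg).2 (hG g (hDg g hg).1 (hDg g hg).2.2)
      _ = m := h1.symm

end Pool.Agent.H17Reg.Un2
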